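import Pool.Agent.U74.DS.Core
import Pool.Agent.U293.PA.Fin

/-!
# Membership in the class

Owner helper74.
-/

set_option autoImplicit false

namespace Pool.Agent.U74.DS

open Pool.Agent.Y110.FJ (ClosedE)
open Pool.Agent.N509.TX (AcylF of_fg C_stab)
open Pool.Agent.R941.FJ (C_le)
open Pool.Agent.U670.AT (GG)

/-! ### roots of unity in finitely generated domains -/

theorem fin_mu_p {K : Type} [Field K] (p : ℕ) [Fact p.Prime] [CharP K p] (S : Finset K) :
    letI : Algebra (ZMod p) K := ZMod.algebra K p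
    {z : K | z ∈ Algebra.adjoin (ZMod p) (S : Set K) ∧ ∃ n : ℕ, 0 < n ∧ z ^ n = 1}.Finite := by
  classical
  letI : Algebra (ZMod p) K := ZMod.algebra K p
  let A := Algebra.adjoin (ZMod p) (S : Set K)
  have hft : Algebra.FiniteType (ZMod p) A := by
    rw [← Subalgebra.fg_iff_finiteType]
    exact ⟨S, rfl⟩
  obtain ⟨M, hM⟩ := Ideal.exists_maximal A
  have hft2 : Algebra.FiniteType (ZMod p) (A ⧸ M) :=
    Algebra.FiniteType.of_surjective (Ideal.Quotient.mkₐ (ZMod p) M)
      (Ideal.Quotient.mkₐ_surjective (ZMod p) M)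
  let _ : Field (A ⧸ M) := Ideal.Quotient.field M
  have hfin : Module.Finite (ZMod p) (A ⧸ M) :=
    finite_of_finite_type_of_isJacobsonRing (ZMod p) (A ⧸ M)
  have hfin2 : Finite (A ⧸ M) := Module.finite_of_finite (ZMod p)
  have hch : CharP (A ⧸ M) p := charP_of_injective_algebraMap (algebraMap (ZMod p) (A ⧸ M)).injective p
  have hchA : CharP A p := charP_of_injective_algebraMap
    (FaithfulSMul.algebraMap_injective (ZMod p) A) p
  -- roots of unity have order prime to `p`
  have hord : ∀ z : A, (∃ n : ℕ, 0 < n ∧ z ^ n = 1) → ∃ n : ℕ, ¬ p ∣ n ∧ z ^ n = 1 := by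
    rintro z ⟨n, hn, hz⟩
    obtain ⟨k, n', hn', rfl⟩ := Nat.exists_eq_pow_mul_and_not_dvd hn.ne' p
      (Fact.out : p.Prime).ne_one
    refine ⟨n', hn', ?_⟩
    have h1 : (z ^ n' - 1) ^ p ^ k = 0 := by
      rw [sub_pow_char_pow, one_pow, ← pow_mul, mul_comm, hz, sub_self]
    exact sub_eq_zero.1 (pow_eq_zero_iff (pow_ne_zero k (Fact.out : p.Prime).ne_zero) |>.1 h1)
  have hinj : ∀ z : A, (∃ n : ℕ, 0 < n ∧ z ^ n = 1) → Ideal.Quotient.mk M z = 1 → z = 1 := by
    intro z hz0 h2
    obtain ⟨n, hn, hz⟩ := hord z hz0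
    by_contra hne
    have h3 : ∑ i ∈ Finset.range n, z ^ i = 0 := by
      have h4 : (∑ i ∈ Finset.range n, z ^ i) * (z - 1) = 0 := by
        rw [geom_sum_mul, hz, sub_self]
      exact (mul_eq_zero.1 h4).resolve_right (sub_ne_zero.2 hne)
    have h5 := congrArg (Ideal.Quotient.mk M) h3
    rw [map_sum, map_zero] at h5
    simp only [map_pow, h2, one_pow, Finset.sum_const, Finset.card_range, nsmul_eq_mul,
      mul_one] at h5
    exact hn ((CharP.cast_eq_zero_iff (A ⧸ M) p n).1 h5)
  have h6 : {z : A | ∃ n : ℕ, 0 < n ∧ z ^ n = 1}.Finite := by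
    refine Set.Finite.of_finite_image (f := Ideal.Quotient.mk M) (Set.toFinite _) ?_
    rintro z ⟨n, hn, hz⟩ w ⟨m, hm, hw⟩ hzw
    have hz' : z * z ^ (n - 1) = 1 := by rw [← pow_succ', Nat.sub_add_cancel hn, hz]
    have h7 := hinj (w * z ^ (n - 1)) ⟨n * m, Nat.mul_pos hn hm, by
      rw [mul_pow, mul_comm n m, pow_mul w, hw, one_pow, one_mul, ← pow_mul, mul_comm m n,
        ← mul_assoc, mul_comm (n - 1) n, mul_assoc, pow_mul, hz, one_pow]⟩ (by
      rw [map_mul, map_pow]
      have : Ideal.Quotient.mk M w = Ideal.Quotient.mk M z := hzw.symm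
      rw [this, ← map_pow, ← map_mul, hz', map_one])
    calc z = z * (w * z ^ (n - 1)) := by rw [h7, mul_one]
      _ = w * (z * z ^ (n - 1)) := by ring
      _ = w := by rw [hz', mul_one]
  refine (h6.image (fun z : A => (z : K))).subset ?_
  rintro z ⟨hzA, n, hn, hz⟩
  exact ⟨⟨z, hzA⟩, ⟨n, hn, Subtype.ext hz⟩, rfl⟩

/-- every finite set is contained in a subring with finitely many roots of unity -/
theorem exists_sub {K : Type} [Field K] (S : Finset K) : ∃ R : Subring K, (S : Set K) ⊆ R ∧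
    {z : K | z ∈ R ∧ ∃ n : ℕ, 0 < n ∧ z ^ n = 1}.Finite := by
  obtain ⟨p, hp⟩ := CharP.exists K
  rcases CharP.char_is_prime_or_zero K p with h | h
  · haveI : Fact p.Prime := ⟨h⟩
    letI : Algebra (ZMod p) K := ZMod.algebra K p
    refine ⟨(Algebra.adjoin (ZMod p) (S : Set K)).toSubring, Algebra.subset_adjoin, ?_⟩
    exact fin_mu_p p S
  · subst h
    haveI : CharZero K := CharP.charP_to_charZero K
    refine ⟨(Algebra.adjoin ℚ (S : Set K)).toSubring, Algebra.subset_adjoin, ?_⟩
    exact Pool.Agent.U293.PA.fin_mu S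

/-! ### the two groups are solvable -/

theorem solv_of {Γ : Type} [Group Γ] {H N : Subgroup Γ} (hN : Group.IsSolvable N)
    (h : ∀ a ∈ H, ∀ b ∈ H, a * b * a⁻¹ * b⁻¹ ∈ N) : Group.IsSolvable H := by
  have h1 : ∀ x : ↥(commutator H), ((x : H) : Γ) ∈ N := by
    rintro ⟨x, hx⟩
    have h2 : commutator H ≤ N.comap H.subtype := by
      rw [commutator_def, Subgroup.commutator_le]
      intro a _ b _
      exact h a a.2 b b.2
    exact h2 hx
  have i1 : Group.IsSolvable ↥(commutator H) := by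
    refine Group.isSolvable_of_isSolvable_injective
      (f := ({ toFun := fun x => ⟨((x : H) : Γ), h1 x⟩
               map_one' := rfl
               map_mul' := fun _ _ => rfl } : ↥(commutator H) →* N)) ?_
    intro x y hxy
    have := congrArg Subtype.val hxy
    exact Subtype.ext (Subtype.ext this)
  have i2 : Group.IsSolvable (H ⧸ commutator H) := by
    apply Group.isSolvable_of_comm
    intro a b
    exact mul_comm (G := Abelianization H) a b
  exact Group.isSolvable_of_ker_le_range (commutator H).subtype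
    (QuotientGroup.mk' (commutator H)) (by
      rw [QuotientGroup.ker_mk', Subgroup.range_subtype])

variable {K : Type} [Field K] {P : Polynomial K}

/-- the unipotent triangular automorphisms -/
def nG (P : Polynomial K) : Subgroup (Au P) where
  carrier := {g | ∃ q : Polynomial K, Bp g 1 1 q}
  one_mem' := ⟨0, bp_one⟩
  mul_mem' := by
    rintro g h ⟨q, hg⟩ ⟨q', hh⟩
    have := bp_mul hg hh
    rw [mul_one] at this
    exact ⟨_, this⟩
  inv_mem' := by
    rintro g ⟨q, hg⟩
    have := bp_inv hg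
    rw [inv_one] at this
    exact ⟨_, this⟩

theorem b_solvable (hP : P ≠ 0) : Group.IsSolvable ↥(bG P) := by
  have hN : Group.IsSolvable ↥(nG P) := by
    apply Group.isSolvable_of_comm
    rintro ⟨g, q, hg⟩ ⟨h, q', hh⟩
    apply Subtype.ext
    have h1 := bp_mul hg hh
    have h2 := bp_mul hh hg
    refine ext_xz hP (h1.1.trans h2.1.symm) (h1.2.trans (Eq.trans ?_ h2.2.symm))
    congr 2
    simp only [Units.val_one, Polynomial.C_1, one_mul, Polynomial.comp_X]
    ring
  refine solv_of hN ?_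
  rintro g ⟨l, m, q, hg⟩ h ⟨l', m', q', hh⟩
  have h1 := bp_mul (bp_mul (bp_mul hg hh) (bp_inv hg)) (bp_inv hh)
  have e1 : l * l' * l⁻¹ * l'⁻¹ = 1 := by rw [mul_comm l, mul_inv_cancel_right, mul_inv_cancel]
  have e2 : m * m' * m⁻¹ * m'⁻¹ = 1 := by rw [mul_comm m, mul_inv_cancel_right, mul_inv_cancel]
  rw [e1, e2] at h1
  exact ⟨_, h1⟩

theorem a_solvable (hP : P ≠ 0) : Group.IsSolvable ↥(aG P) := by
  refine solv_of (b_solvable hP) ?_
  intro g hg h hh
  obtain ⟨s, l, b, m, n, hg⟩ := mem_aG.1 hg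
  obtain ⟨s', l', b', m', n', hh⟩ := mem_aG.1 hh
  obtain ⟨_, _, _, h1⟩ := ap_mul hg hh
  obtain ⟨_, _, _, h2⟩ := ap_inv hg
  obtain ⟨_, _, _, h3⟩ := ap_inv hh
  obtain ⟨_, _, _, h4⟩ := ap_mul h1 h2
  obtain ⟨_, _, _, h5⟩ := ap_mul h4 h3
  have e : xor (xor (xor s s') s) s' = false := by cases s <;> cases s' <;> rfl
  rw [e] at h5
  exact ⟨_, _, _, bp_of_ap h5⟩

/-! ### automorphisms defined over a subring -/

/-- the elements with coefficients in `R` -/
noncomputable def SR (P : Polynomial K) (R : Subring K) : Subring (Rng P) :=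
  ((Ideal.Quotient.mk (Ideal.span {eqn P})).comp (MvPolynomial.map (σ := Fin 3) R.subtype)).range

theorem SR_gen (P : Polynomial K) (R : Subring K) (i : Fin 3) :
    (Ideal.Quotient.mk _ (MvPolynomial.X i) : Rng P) ∈ SR P R :=
  ⟨MvPolynomial.X i, by rw [RingHom.comp_apply, MvPolynomial.map_X]⟩

theorem map_SR {R : Subring K} {g : Au P}
    (hg : ∀ i, g (Ideal.Quotient.mk _ (MvPolynomial.X i)) ∈ SR P R) {f : Rng P}
    (hf : f ∈ SR P R) : g f ∈ SR P R := by
  obtain ⟨Q, rfl⟩ := hf
  induction Q using MvPolynomial.induction_on with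
  | C a =>
    rw [RingHom.comp_apply, MvPolynomial.map_C]
    have h1 : g (Ideal.Quotient.mk _ (MvPolynomial.C (R.subtype a))) =
        Ideal.Quotient.mk _ (MvPolynomial.C (R.subtype a)) := g.commutes (R.subtype a)
    rw [h1]
    exact ⟨MvPolynomial.C a, by rw [RingHom.comp_apply, MvPolynomial.map_C]⟩
  | add p q hp hq =>
    rw [map_add, map_add]
    exact add_mem hp hq
  | mul_X p i hp =>
    rw [map_mul, map_mul, RingHom.comp_apply, RingHom.comp_apply, MvPolynomial.map_X]
    exact mul_mem hp (hg i)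

/-- the automorphisms defined over `R` -/
noncomputable def DR (P : Polynomial K) (R : Subring K) : Subgroup (Au P) where
  carrier := {g | (∀ i, g (Ideal.Quotient.mk _ (MvPolynomial.X i)) ∈ SR P R) ∧
    ∀ i, (g⁻¹ : Au P) (Ideal.Quotient.mk _ (MvPolynomial.X i)) ∈ SR P R}
  one_mem' := ⟨SR_gen P R, fun i => by rw [inv_one]; exact SR_gen P R i⟩
  mul_mem' := by
    rintro a b ⟨ha, ha'⟩ ⟨hb, hb'⟩
    refine ⟨fun i => ?_, fun i => ?_⟩
    · rw [AlgEquiv.mul_apply]
      exact map_SR ha (hb i)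
    · rw [mul_inv_rev, AlgEquiv.mul_apply]
      exact map_SR hb' (ha' i)
  inv_mem' := by
    rintro a ⟨ha, ha'⟩
    exact ⟨ha', by rw [inv_inv]; exact ha⟩

theorem exists_SR (f : Rng P) : ∃ S : Finset K, ∀ R : Subring K, (S : Set K) ⊆ R → f ∈ SR P R := by
  classical
  obtain ⟨F, rfl⟩ := Ideal.Quotient.mk_surjective f
  refine ⟨F.coeffs, fun R hR => ?_⟩
  have h1 : F ∈ Set.range (MvPolynomial.map (σ := Fin 3) R.subtype) := by
    rw [MvPolynomial.mem_range_map_iff_coeffs_subset]
    intro x hx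
    exact ⟨⟨x, hR hx⟩, rfl⟩
  obtain ⟨Q, rfl⟩ := h1
  exact ⟨Q, rfl⟩

theorem exists_DR (g : Au P) : ∃ S : Finset K, ∀ R : Subring K, (S : Set K) ⊆ R → g ∈ DR P R := by
  classical
  choose S hS using fun i : Fin 3 => exists_SR (g (Ideal.Quotient.mk _ (MvPolynomial.X i)))
  choose T hT using fun i : Fin 3 => exists_SR ((g⁻¹ : Au P) (Ideal.Quotient.mk _ (MvPolynomial.X i)))
  refine ⟨Finset.univ.biUnion fun i => S i ∪ T i, fun R hR => ⟨fun i => hS i R ?_,
    fun i => hT i R ?_⟩⟩
  · refine subset_trans ?_ hR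
    intro x hx
    rw [Finset.mem_coe, Finset.mem_biUnion]
    exact ⟨i, Finset.mem_univ _, Finset.mem_union_left _ hx⟩
  · refine subset_trans ?_ hR
    intro x hx
    rw [Finset.mem_coe, Finset.mem_biUnion]
    exact ⟨i, Finset.mem_univ _, Finset.mem_union_right _ hx⟩

theorem exists_R {g : Au P} (hg : g ∈ aG P ⊔ bG P) :
    ∃ S : Finset K, ∀ R : Subring K, (S : Set K) ⊆ R →
      g ∈ (aG P ⊓ DR P R) ⊔ (bG P ⊓ DR P R) := by
  classical
  let T : Subgroup (Au P) :=
    { carrier := {g | ∃ S : Finset K, ∀ R : Subring K, (S : Set K) ⊆ R →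
        g ∈ (aG P ⊓ DR P R) ⊔ (bG P ⊓ DR P R)}
      one_mem' := ⟨∅, fun R _ => one_mem _⟩
      mul_mem' := by
        rintro a b ⟨S, hS⟩ ⟨S', hS'⟩
        refine ⟨S ∪ S', fun R hR => mul_mem (hS R ?_) (hS' R ?_)⟩
        · exact (Finset.coe_subset.2 Finset.subset_union_left).trans hR
        · exact (Finset.coe_subset.2 Finset.subset_union_right).trans hR
      inv_mem' := by
        rintro a ⟨S, hS⟩
        exact ⟨S, fun R hR => inv_mem (hS R hR)⟩ }
  have h1 : aG P ≤ T := by
    intro a ha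
    obtain ⟨S, hS⟩ := exists_DR a
    exact ⟨S, fun R hR => Subgroup.mem_sup_left ⟨ha, hS R hR⟩⟩
  have h2 : bG P ≤ T := by
    intro a ha
    obtain ⟨S, hS⟩ := exists_DR a
    exact ⟨S, fun R hR => Subgroup.mem_sup_right ⟨ha, hS R hR⟩⟩
  exact (sup_le h1 h2) hg

/-- the Laurent polynomials with coefficients in `R` -/
def WR (R : Subring K) : Subring (Polynomial (Lf K)) where
  carrier := {F | ∀ i n, (F.coeff i).coeff n ∈ R}
  zero_mem' := fun i n => by
    rw [Polynomial.coeff_zero, HahnSeries.coeff_zero]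
    exact zero_mem R
  one_mem' := fun i n => by
    rw [Polynomial.coeff_one]
    split_ifs
    · rw [HahnSeries.coeff_one]
      split_ifs
      · exact one_mem R
      · exact zero_mem R
    · rw [HahnSeries.coeff_zero]
      exact zero_mem R
  add_mem' := by
    intro F G hF hG i n
    rw [Polynomial.coeff_add, HahnSeries.coeff_add]
    exact add_mem (hF i n) (hG i n)
  neg_mem' := by
    intro F hF i n
    rw [Polynomial.coeff_neg, HahnSeries.coeff_neg]
    exact neg_mem (hF i n)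
  mul_mem' := by
    intro F G hF hG i n
    rw [Polynomial.coeff_mul, HahnSeries.coeff_sum]
    refine sum_mem fun x _ => ?_
    rw [HahnSeries.coeff_mul]
    exact sum_mem fun y _ => mul_mem (hF _ _) (hG _ _)

theorem alg_coeff (c : K) (n : ℤ) : (algebraMap K (Lf K) c).coeff n = if n = 0 then c else 0 := by
  have : algebraMap K (Lf K) c = HahnSeries.C c := by
    rw [HahnSeries.algebraMap_apply']
    simp
  rw [this, HahnSeries.C_apply, HahnSeries.coeff_single]
  split_ifs <;> rfl

theorem CWR {R : Subring K} {s : Lf K} (hs : ∀ n, s.coeff n ∈ R) : Polynomial.C s ∈ WR R := by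
  intro i n
  rw [Polynomial.coeff_C]
  split_ifs
  · exact hs n
  · rw [HahnSeries.coeff_zero]
    exact zero_mem R

theorem single_mem {R : Subring K} (k : ℤ) (n : ℤ) :
    (HahnSeries.single k (1 : K)).coeff n ∈ R := by
  rw [HahnSeries.coeff_single]
  split_ifs
  · exact one_mem R
  · exact zero_mem R

theorem XWR (R : Subring K) : (Polynomial.X : Polynomial (Lf K)) ∈ WR R := by
  intro i n
  rw [Polynomial.coeff_X]
  split_ifs
  · rw [HahnSeries.coeff_one]
    split_ifs
    · exact one_mem R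
    · exact zero_mem R
  · rw [HahnSeries.coeff_zero]
    exact zero_mem R

theorem th_SR {R : Subring K} (hR : ∀ i, P.coeff i ∈ R) {f : Rng P} (hf : f ∈ SR P R) :
    th P f ∈ WR R := by
  obtain ⟨Q, rfl⟩ := hf
  induction Q using MvPolynomial.induction_on with
  | C a =>
    rw [RingHom.comp_apply, MvPolynomial.map_C]
    have h1 : th P (Ideal.Quotient.mk _ (MvPolynomial.C (R.subtype a))) =
        Polynomial.C (algebraMap K (Lf K) a) := (th P).commutes (R.subtype a)
    rw [h1]
    refine CWR fun n => ?_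
    rw [alg_coeff]
    split_ifs
    · exact a.2
    · exact zero_mem R
  | add p q hp hq =>
    rw [map_add, map_add]
    exact add_mem hp hq
  | mul_X p i hp =>
    rw [map_mul, map_mul, RingHom.comp_apply, RingHom.comp_apply, MvPolynomial.map_X]
    refine mul_mem hp ?_
    rw [th_mk]
    fin_cases i
    · change th0 P (MvPolynomial.X 0) ∈ WR R
      rw [th0_x]
      exact CWR (single_mem 1)
    · change th0 P (MvPolynomial.X 1) ∈ WR R
      rw [th0_y]
      refine mul_mem (CWR (single_mem (-1))) ?_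
      rw [aeval_comp_L, Polynomial.comp_X]
      intro i n
      rw [Polynomial.coeff_map, alg_coeff]
      split_ifs
      · exact hR i
      · exact zero_mem R
    · change th0 P (MvPolynomial.X 2) ∈ WR R
      rw [th0_z]
      exact XWR R

theorem mem_R {R : Subring K} (hR : ∀ i, P.coeff i ∈ R) {t : Au P} {l b m : Kˣ} {n : K}
    (h : Ap t false l b m n) (ht : t ∈ DR P R) : (l : K) ∈ R ∧ (m : K) ∈ R := by
  constructor
  · have h1 := th_SR hR (ht.1 0)
    have h2 : t (Ideal.Quotient.mk _ (MvPolynomial.X 0)) = (l : K) • cx P := h.1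
    rw [h2, map_smul, th_x, smul_L] at h1
    have h3 := h1 0 1
    rw [Polynomial.coeff_C_mul, Polynomial.coeff_C_zero] at h3
    have h4 : algebraMap K (Lf K) l = HahnSeries.C (l : K) := by
      rw [HahnSeries.algebraMap_apply']
      simp
    rw [h4, HahnSeries.C_mul_eq_smul, HahnSeries.coeff_smul, smul_eq_mul] at h3
    unfold sx at h3
    rw [HahnSeries.coeff_single_same, mul_one] at h3
    exact h3
  · have h1 := th_SR hR (ht.1 2)
    have h2 : t (Ideal.Quotient.mk _ (MvPolynomial.X 2)) =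
      (m : K) • cz P + algebraMap K _ n := h.2.2
    rw [h2, map_add, map_smul, th_z, smul_L, AlgHom.commutes] at h1
    have h3 := h1 1 0
    have h5 : (algebraMap K (Polynomial (Lf K)) n).coeff 1 = 0 := by
      rw [Polynomial.algebraMap_apply, Polynomial.coeff_C_succ]
    rw [Polynomial.coeff_add, h5, add_zero, Polynomial.coeff_C_mul, Polynomial.coeff_X_one,
      mul_one, alg_coeff, if_pos rfl] at h3
    exact h3

theorem LevB.inf {Γ : Type} [Group Γ] {A B : Subgroup Γ} {lA lB : Γ → ℕ} (h : LevB A B lA lB)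
    (D : Subgroup Γ) : LevB (A ⊓ D) (B ⊓ D) lA lB where
  iA := fun g a ha => h.iA g a ha.1
  iB := fun g b hb => h.iB g b hb.1
  base := fun b hb => h.base b hb.1
  uA := fun g a ha h1 h2 => ⟨h.uA g a ha.1 h1 h2, ha.2⟩
  uB := fun g b hb hb' h1 => h.uB g b hb.1 (fun hh => hb' ⟨hh, hb.2⟩) h1

variable {C : ∀ (G : Type) [Group G], Prop}

/-- **the group generated by the linear and the triangular automorphisms is in the class** -/
theorem main (hC : ClosedE C) (hAc : AcylF C)
    (hS : ∀ (G : Type) [Group G], Group.IsSolvable G → C G) (hd : 3 ≤ P.natDegree) :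
    C ↥(aG P ⊔ bG P) := by
  classical
  have hd0 : 0 < P.natDegree := by omega
  have hP := P_ne hd0
  refine of_fg hC fun H hH => ?_
  obtain ⟨T, hT⟩ := (Group.fg_iff_subgroup_fg _).1 hH
  have h1 : ∀ t : ↥(aG P ⊔ bG P), ∃ S : Finset K, ∀ R : Subring K, (S : Set K) ⊆ R →
      (t : Au P) ∈ (aG P ⊓ DR P R) ⊔ (bG P ⊓ DR P R) := fun t => exists_R t.2
  choose S hSS using h1
  obtain ⟨S0, hS0⟩ : ∃ S0 : Finset K, S0 = T.biUnion S ∪ P.coeffs := ⟨_, rfl⟩
  obtain ⟨R, hSR, hRf⟩ := exists_sub S0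
  have hPR : ∀ i, P.coeff i ∈ R := by
    intro i
    by_cases h0 : P.coeff i = 0
    · rw [h0]
      exact zero_mem R
    · apply hSR
      rw [hS0, Finset.coe_union]
      exact Or.inr (Polynomial.coeff_mem_coeffs h0)
  have hHR : ∀ h ∈ H, (h : Au P) ∈ (aG P ⊓ DR P R) ⊔ (bG P ⊓ DR P R) := by
    intro h hh
    rw [← hT] at hh
    induction hh using Subgroup.closure_induction with
    | mem x hx =>
      refine hSS x R (subset_trans ?_ hSR)
      rw [hS0, Finset.coe_union]
      exact (Finset.coe_subset.2 (Finset.subset_biUnion_of_mem S hx)).trans Set.subset_union_left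
    | one => exact one_mem _
    | mul x y _ _ hx hy => exact mul_mem hx hy
    | inv x _ hx => exact inv_mem hx
  have hGG : C (GG (aG P ⊓ DR P R) (bG P ⊓ DR P R)) := by
    refine levB_closed hC hAc ((levB hd).inf (DR P R)) (Wset_finite hd0 hRf) ?_ ?_ ?_
    · intro t ht ht' b hb hb' a ha ha' c hc hc' k1 k2 k3
      obtain ⟨l, c0, m, n, p, h4, h5⟩ := core hd ht.1 ht'.1 hb.1 (fun h => hb' ⟨h, hb.2⟩) ha.1
        (fun h => ha' ⟨h, ha.2⟩) hc.1 (fun h => hc' ⟨h, hc.2⟩) k1.1 k2.1 k3.1
      obtain ⟨h6, h7⟩ := mem_R hPR p ht.2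
      exact ⟨l, c0, m, n, p, ⟨h6, h4⟩, ⟨h7, h5⟩⟩
    · exact C_le hC.base inf_le_left (hS _ (a_solvable hP))
    · exact C_le hC.base inf_le_left (hS _ (b_solvable hP))
  let f : H →* GG (aG P ⊓ DR P R) (bG P ⊓ DR P R) :=
    { toFun := fun h => ⟨((h : ↥(aG P ⊔ bG P)) : Au P), hHR h h.2⟩
      map_one' := rfl
      map_mul' := fun _ _ => rfl }
  refine hC.base.of_injective _ _ f ?_ hGG
  intro x y hxy
  have := congrArg Subtype.val hxy
  exact Subtype.ext (Subtype.ext this)

end Pool.Agent.U74.DS
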