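import Pool.Agent.U74.DS.Grp

/-!
# The tree of the surface `x y = P(z)`, and the stabilizers of its long paths

Owner helper74.
-/

set_option autoImplicit false

namespace Pool.Agent.U74.DS

variable {K : Type} [Field K] {P : Polynomial K}

/-! ### the level functions -/

/-- the level of the coset `g A` -/
noncomputable def lA (g : Au P) : ℕ := max (dg (g (cx P))) (dg (g (cy P)))

/-- the level of the coset `g B` -/
noncomputable def lB (g : Au P) : ℕ := dg (g (cx P))

theorem P_ne (hd : 0 < P.natDegree) : P ≠ 0 := by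
  rintro rfl
  simp at hd

theorem dg_rel (hd : 0 < P.natDegree) (g : Au P) :
    dg (g (cx P)) + dg (g (cy P)) = P.natDegree * dg (g (cz P)) := by
  have hP := P_ne hd
  rw [← dg_mul hP (g_ne g (cx_ne P)) (g_ne g (cy_ne hP)), ← map_mul, rel, g_aeval, dg_aeval]

theorem not_const (hd : 0 < P.natDegree) (g : Au P) (hx : dg (g (cx P)) = 0)
    (hy : dg (g (cy P)) = 0) : False := by
  have hz : dg (g (cz P)) = 0 := by
    have := dg_rel hd g
    rw [hx, hy, add_zero] at this
    rcases Nat.mul_eq_zero.1 this.symm with h | h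
    · omega
    · exact h
  -- all the elements have degree zero
  obtain ⟨S, hS⟩ : ∃ S : Subalgebra K (Rng P), S =
      ((Polynomial.CAlgHom (R := K) (A := Lf K)).range).comap ((th P).comp (g : Rng P →ₐ[K] Rng P)) :=
    ⟨_, rfl⟩
  have hmem : ∀ f : Rng P, f ∈ S ↔ dg (g f) = 0 := by
    intro f
    rw [hS, Subalgebra.mem_comap]
    constructor
    · rintro ⟨c, hc⟩
      change (th P (g f)).natDegree = 0
      have hc' : Polynomial.C c = th P (g f) := hc
      rw [← hc', Polynomial.natDegree_C]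
    · intro h
      exact ⟨_, (Polynomial.eq_C_of_natDegree_eq_zero h).symm⟩
  have htop : ∀ f : Rng P, f ∈ S := by
    intro f
    obtain ⟨F, rfl⟩ := Ideal.Quotient.mk_surjective f
    induction F using MvPolynomial.induction_on with
    | C a => exact S.algebraMap_mem a
    | add p q hp hq =>
      rw [map_add]
      exact add_mem hp hq
    | mul_X p i hp =>
      rw [map_mul]
      refine mul_mem hp ?_
      fin_cases i
      · exact (hmem _).2 hx
      · exact (hmem _).2 hy
      · exact (hmem _).2 hz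
  have h1 := (hmem _).1 (htop ((g⁻¹ : Au P) (cz P)))
  have h2 : g ((g⁻¹ : Au P) (cz P)) = cz P := g.apply_symm_apply _
  rw [h2, dg_z] at h1
  omega

theorem levB (hd : 3 ≤ P.natDegree) : LevB (aG P) (bG P) lA lB where
  iA := by
    intro g a ha
    obtain ⟨s, l, b, m, n, h1, h2, -⟩ := mem_aG.1 ha
    unfold lA
    rw [AlgEquiv.mul_apply, AlgEquiv.mul_apply, h1, h2, map_smul, map_smul, dg_smul l.ne_zero,
      dg_smul b.ne_zero]
    cases s
    · rfl
    · exact max_comm _ _
  iB := by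
    intro g b hb
    obtain ⟨l, m, q, h1, -⟩ := mem_bG.1 hb
    unfold lB
    rw [AlgEquiv.mul_apply, h1, map_smul, dg_smul l.ne_zero]
  base := by
    intro b hb
    obtain ⟨l, m, q, h1, h2⟩ := mem_bG.1 hb
    have hx : dg (b (cx P)) = 0 := by rw [h1, dg_smul l.ne_zero, dg_x]
    unfold lA lB
    rw [hx]
    by_contra hcon
    refine not_const (by omega) b hx ?_
    have := le_max_right 0 (dg (b (cy P)))
    omega
  uA := by
    intro g a ha h1 h2
    obtain ⟨s, l, b, m, n, h⟩ := mem_aG.1 ha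
    cases s
    · exact ⟨l, m, _, bp_of_ap h⟩
    · exfalso
      have h3 : a (cx P) = (l : K) • cy P := h.1
      unfold lB at h1 h2
      unfold lA at h1 h2
      rw [AlgEquiv.mul_apply, h3, map_smul, dg_smul l.ne_zero] at h2
      omega
  uB := by
    intro g b hb hba h1
    have hd0 : 0 < P.natDegree := by omega
    have hP := P_ne hd0
    obtain ⟨l, m, q, hx, hz⟩ := mem_bG.1 hb
    obtain ⟨a, ha⟩ : ∃ a, a = dg (g (cx P)) := ⟨_, rfl⟩
    have hya : dg (g (cy P)) ≤ a := by
      unfold lA lB at h1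
      rw [← ha] at h1
      exact (le_max_right _ _).trans h1
    have ha0 : 0 < a := by
      rcases Nat.eq_zero_or_pos a with h0 | h0
      · exfalso
        refine not_const hd0 g (by omega) (by omega)
      · exact h0
    have hrel := dg_rel hd0 g
    rw [← ha] at hrel
    have hc : dg (g (cz P)) < a := by
      by_contra hcon
      have : 3 * a ≤ P.natDegree * dg (g (cz P)) := Nat.mul_le_mul hd (not_lt.1 hcon)
      omega
    have hq : 0 < q.natDegree := by
      rcases Nat.eq_zero_or_pos q.natDegree with h0 | h0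
      · exfalso
        have hq := Polynomial.eq_C_of_natDegree_eq_zero h0
        rw [hq] at hz
        exact hba (lin_of_const hP ⟨hx, hz⟩)
      · exact h0
    have hz2 : dg ((g * b) (cz P)) = q.natDegree * a := by
      rw [AlgEquiv.mul_apply, hz, map_add, map_smul, g_aeval]
      have e1 : dg (Polynomial.aeval (g (cx P)) q) = q.natDegree * a := by rw [dg_aeval, ← ha]
      have e2 : dg ((m : K) • g (cz P)) < q.natDegree * a := by
        rw [dg_smul m.ne_zero]
        exact hc.trans_le (Nat.le_mul_of_pos_left _ hq)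
      unfold dg at e1 e2 ⊢
      rw [map_add, Polynomial.natDegree_add_eq_right_of_natDegree_lt (by rw [e1]; exact e2), e1]
    have hx2 : dg ((g * b) (cx P)) = a := by
      rw [AlgEquiv.mul_apply, hx, map_smul, dg_smul l.ne_zero, ha]
    have hrel2 := dg_rel hd0 (g * b)
    rw [hx2, hz2] at hrel2
    have h3 : 3 * a ≤ P.natDegree * (q.natDegree * a) :=
      Nat.mul_le_mul hd (Nat.le_mul_of_pos_left _ hq)
    unfold lB lA
    rw [← ha, hx2]
    refine lt_of_lt_of_le ?_ (le_max_right _ _)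
    omega

/-! ### the elements of the edge groups -/

theorem aeval_z_inj {q q' : Polynomial K}
    (h : Polynomial.aeval (cz P) q = Polynomial.aeval (cz P) q') : q = q' := by
  have h1 := congrArg (th P) h
  rw [← Polynomial.aeval_algHom_apply, ← Polynomial.aeval_algHom_apply, th_z, aeval_comp_L,
    aeval_comp_L, Polynomial.comp_X, Polynomial.comp_X] at h1
  exact Polynomial.map_injective _ (algebraMap K (Lf K)).injective h1

theorem ap_poly {t : Au P} {l b m : Kˣ} {n : K} (h : Ap t false l b m n) :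
    Polynomial.C ((l : K) * b) * P =
      P.comp (Polynomial.C (m : K) * Polynomial.X + Polynomial.C n) := by
  apply aeval_z_inj
  obtain ⟨h1, h2, h3⟩ := h
  have h1' : t (cx P) = (l : K) • cx P := h1
  have h2' : t (cy P) = (b : K) • cy P := h2
  have h4 := congrArg t (rel P)
  rw [map_mul, g_aeval, h1', h2', h3, aeval_lin] at h4
  rw [← h4, aeval_C_mul, ← rel, smul_mul_smul_comm]

theorem ap_lead (hd : 0 < P.natDegree) {t : Au P} {l b m : Kˣ} {n : K}
    (h : Ap t false l b m n) : l * b = m ^ P.natDegree := by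
  have hP := P_ne hd
  have h1 := congrArg Polynomial.leadingCoeff (ap_poly h)
  have hlin : (Polynomial.C (m : K) * Polynomial.X + Polynomial.C n).natDegree = 1 :=
    Polynomial.natDegree_linear m.ne_zero
  rw [Polynomial.leadingCoeff_mul, Polynomial.leadingCoeff_C,
    Polynomial.leadingCoeff_comp (by rw [hlin]; exact one_ne_zero),
    Polynomial.leadingCoeff_linear m.ne_zero, mul_comm P.leadingCoeff] at h1
  have h2 := mul_right_cancel₀ (Polynomial.leadingCoeff_ne_zero.2 hP) h1
  apply Units.ext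
  rw [Units.val_mul, Units.val_pow_eq_pow_val]
  exact h2

theorem ap_const (hd : 0 < P.natDegree) {t : Au P} {l b m : Kˣ} {n : K}
    (h : Ap t false l b m n) : P.eval n = (m : K) ^ P.natDegree * P.eval 0 := by
  have h1 := congrArg (Polynomial.eval 0) (ap_poly h)
  rw [Polynomial.eval_mul, Polynomial.eval_C, Polynomial.eval_comp, Polynomial.eval_add,
    Polynomial.eval_mul, Polynomial.eval_C, Polynomial.eval_X, Polynomial.eval_C, mul_zero,
    zero_add] at h1
  rw [← h1, ← Units.val_pow_eq_pow_val, ← ap_lead hd h, Units.val_mul]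

/-- passing through a vertex `B` -/
theorem turnB (hP : P ≠ 0) {t s c : Au P} {l b m l' b' m' : Kˣ} {n n' : K}
    (ht : Ap t false l b m n) (hs : Ap s false l' b' m' n') (hc : c ∈ bG P) (hc' : c ∉ aG P)
    (e : t * c = c * s) : l' = l ∧ m' = m ∧ ∃ j : ℕ, 0 < j ∧ l ^ j = m := by
  obtain ⟨l1, m1, q, hx, hz⟩ := mem_bG.1 hc
  have htx : t (cx P) = (l : K) • cx P := ht.1
  have hsx : s (cx P) = (l' : K) • cx P := hs.1
  have e1 : (t * c) (cx P) = (c * s) (cx P) := by rw [e]
  have e2 : (t * c) (cz P) = (c * s) (cz P) := by rw [e]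
  rw [AlgEquiv.mul_apply, AlgEquiv.mul_apply, hx, hsx, map_smul, map_smul, htx, hx, smul_smul,
    smul_smul] at e1
  have h1 := smul_cancel (cx_ne P) hP e1
  have hl : l' = l := by
    apply Units.ext
    have h2 : (l1 : K) * l' = (l1 : K) * l := by
      rw [h1]
      ring
    exact mul_left_cancel₀ l1.ne_zero h2
  rw [AlgEquiv.mul_apply, AlgEquiv.mul_apply, hz, hs.2.2, map_add, map_add, map_smul, map_smul,
    ht.2.2, hz, g_aeval, htx, AlgEquiv.commutes, aeval_smul, smul_add, smul_add, smul_smul,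
    smul_smul] at e2
  have e3 : ((m1 : K) * m) • cz P + Polynomial.aeval (cx P) (Polynomial.C ((m1 : K) * n) +
      q.comp (Polynomial.C (l : K) * Polynomial.X)) =
      ((m' : K) * m1) • cz P + Polynomial.aeval (cx P) (Polynomial.C (m' : K) * q +
        Polynomial.C n') := by
    rw [map_add, map_add, Polynomial.aeval_C, Polynomial.aeval_C, aeval_C_mul, ← add_assoc,
      ← add_assoc, ← e2, map_mul, ← smul_R]
  obtain ⟨h3, h4⟩ := zx_ext e3
  have hm : m' = m := by
    apply Units.ext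
    have h5 : (m1 : K) * m' = (m1 : K) * m := by
      rw [h3]
      ring
    exact mul_left_cancel₀ m1.ne_zero h5
  have hq : 0 < q.natDegree := by
    rcases Nat.eq_zero_or_pos q.natDegree with h0 | h0
    · exfalso
      have hq := Polynomial.eq_C_of_natDegree_eq_zero h0
      rw [hq] at hz
      exact hc' (lin_of_const hP ⟨hx, hz⟩)
    · exact h0
  refine ⟨hl, hm, q.natDegree, hq, ?_⟩
  have hj : q.natDegree ≠ 0 := by omega
  have h6 := congrArg (fun F => Polynomial.coeff F q.natDegree) h4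
  simp only [Polynomial.coeff_add, Polynomial.coeff_C_mul, Polynomial.coeff_C_ne_zero hj,
    Polynomial.comp_C_mul_X_coeff, zero_add, add_zero] at h6
  have hqn : q.coeff q.natDegree ≠ 0 := by
    have : q ≠ 0 := by
      rintro rfl
      simp at hq
    exact Polynomial.leadingCoeff_ne_zero.2 this
  apply Units.ext
  rw [Units.val_pow_eq_pow_val]
  rw [hm, mul_comm] at h6
  exact mul_right_cancel₀ hqn h6

/-- passing through a vertex `A` -/
theorem turnA (hP : P ≠ 0) {t s c : Au P} {l b m l' b' m' : Kˣ} {n n' : K}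
    (ht : Ap t false l b m n) (hs : Ap s false l' b' m' n') (hc : c ∈ aG P) (hc' : c ∉ bG P)
    (e : t * c = c * s) : l' = b ∧ m' = m := by
  obtain ⟨σ, l1, b1, m1, n1, h⟩ := mem_aG.1 hc
  cases σ
  · exact absurd ⟨l1, m1, _, bp_of_ap h⟩ hc'
  obtain ⟨hx0, -, hz⟩ := h
  have hx : c (cx P) = (l1 : K) • cy P := hx0
  have hty : t (cy P) = (b : K) • cy P := ht.2.1
  have hsx : s (cx P) = (l' : K) • cx P := hs.1
  have e1 : (t * c) (cx P) = (c * s) (cx P) := by rw [e]
  have e2 : (t * c) (cz P) = (c * s) (cz P) := by rw [e]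
  rw [AlgEquiv.mul_apply, AlgEquiv.mul_apply, hx, hsx, map_smul, map_smul, hty, hx, smul_smul,
    smul_smul] at e1
  have h1 := smul_cancel (cy_ne hP) hP e1
  refine ⟨?_, ?_⟩
  · apply Units.ext
    have h2 : (l1 : K) * l' = (l1 : K) * b := by
      rw [h1]
      ring
    exact mul_left_cancel₀ l1.ne_zero h2
  · rw [AlgEquiv.mul_apply, AlgEquiv.mul_apply, hz, hs.2.2, map_add, map_add, map_smul, map_smul,
      ht.2.2, hz, AlgEquiv.commutes, AlgEquiv.commutes, smul_add, smul_add, smul_smul,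
      smul_smul] at e2
    have e3 : ((m1 : K) * m) • cz P + Polynomial.aeval (cx P) (Polynomial.C ((m1 : K) * n + n1)) =
        ((m' : K) * m1) • cz P + Polynomial.aeval (cx P) (Polynomial.C ((m' : K) * n1 + n')) := by
      rw [Polynomial.aeval_C, Polynomial.aeval_C, map_add, map_add, ← add_assoc,
        ← add_assoc, map_mul, map_mul, ← smul_R, ← smul_R, e2]
    obtain ⟨h3, -⟩ := zx_ext e3
    apply Units.ext
    have h5 : (m1 : K) * m' = (m1 : K) * m := by
      rw [h3]
      ring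
    exact mul_left_cancel₀ m1.ne_zero h5

theorem units_arith {l b m : Kˣ} {d j j' : ℕ} (hd : 3 ≤ d) (hj : 0 < j) (hj' : 0 < j')
    (h : l * b = m ^ d) (h1 : l ^ j = m) (h2 : b ^ j' = m) : ∃ N : ℕ, 0 < N ∧ l ^ N = 1 := by
  have e1 : l ^ j' * l ^ j = l ^ (j * d * j') := by
    calc l ^ j' * l ^ j = l ^ j' * b ^ j' := by rw [h1, h2]
      _ = (l * b) ^ j' := (mul_pow _ _ _).symm
      _ = l ^ (j * d * j') := by rw [h, ← h1, ← pow_mul, ← pow_mul, mul_assoc]
  have a1 : j ≤ j * j' := Nat.le_mul_of_pos_right _ hj'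
  have a2 : j' ≤ j * j' := Nat.le_mul_of_pos_left _ hj
  have a3 : 0 < j * j' := Nat.mul_pos hj hj'
  have a4 : 3 * (j * j') ≤ j * d * j' := by
    calc 3 * (j * j') ≤ d * (j * j') := Nat.mul_le_mul_right _ hd
      _ = j * d * j' := by ring
  refine ⟨j * d * j' - (j' + j), by omega, ?_⟩
  have e2 : l ^ (j * d * j' - (j' + j)) * l ^ (j' + j) = 1 * l ^ (j' + j) := by
    rw [← pow_add, Nat.sub_add_cancel (by omega), one_mul, pow_add, e1]
  exact mul_right_cancel e2

/-- the elements which fix a path with four edges have eigenvalues which are roots of unity -/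
theorem core (hd : 3 ≤ P.natDegree) {t b a b' : Au P} (ht : t ∈ aG P) (ht' : t ∈ bG P)
    (hb : b ∈ bG P) (hb' : b ∉ aG P) (ha : a ∈ aG P) (ha' : a ∉ bG P) (hc : b' ∈ bG P)
    (hc' : b' ∉ aG P) (h1 : b⁻¹ * t * b ∈ aG P) (h2 : a⁻¹ * (b⁻¹ * t * b) * a ∈ bG P)
    (h3 : b'⁻¹ * (a⁻¹ * (b⁻¹ * t * b) * a) * b' ∈ aG P) :
    ∃ l c m n, Ap t false l c m n ∧ (∃ N : ℕ, 0 < N ∧ (l : K) ^ N = 1) ∧
      (∃ N : ℕ, 0 < N ∧ (m : K) ^ N = 1) := by
  have hd0 : 0 < P.natDegree := by omega
  have hP := P_ne hd0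
  have k1 : b⁻¹ * t * b ∈ bG P := mul_mem (mul_mem (inv_mem hb) ht') hb
  have k2 : a⁻¹ * (b⁻¹ * t * b) * a ∈ aG P := mul_mem (mul_mem (inv_mem ha) h1) ha
  have k3 : b'⁻¹ * (a⁻¹ * (b⁻¹ * t * b) * a) * b' ∈ bG P :=
    mul_mem (mul_mem (inv_mem hc) h2) hc
  obtain ⟨l0, c0, m0, n0, p0⟩ := ap_of hd0 ht ht'
  obtain ⟨l1, c1, m1, n1, p1⟩ := ap_of hd0 h1 k1
  obtain ⟨l2, c2, m2, n2, p2⟩ := ap_of hd0 k2 h2
  obtain ⟨l3, c3, m3, n3, p3⟩ := ap_of hd0 h3 k3
  obtain ⟨e1, e2, j, hj, e3⟩ := turnB hP p0 p1 hb hb' (by group)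
  obtain ⟨e4, e5⟩ := turnA hP p1 p2 ha ha' (by group)
  obtain ⟨e6, e7, j', hj', e8⟩ := turnB hP p2 p3 hc hc' (by group)
  have e9 := ap_lead hd0 p1
  rw [e1, e2] at e9
  rw [e4, e5, e2] at e8
  obtain ⟨N, hN, e10⟩ := units_arith hd hj hj' e9 e3 e8
  refine ⟨l0, c0, m0, n0, p0, ⟨N, hN, ?_⟩, ⟨N, hN, ?_⟩⟩
  · rw [← Units.val_pow_eq_pow_val, e10, Units.val_one]
  · rw [← Units.val_pow_eq_pow_val, ← e3, ← pow_mul, mul_comm, pow_mul, e10, one_pow,
      Units.val_one]

/-- the elements of the edge group with eigenvalues in `M` -/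
def Wset (P : Polynomial K) (M : Set K) : Set (Au P) :=
  {t | ∃ l b m n, Ap t false l b m n ∧ (l : K) ∈ M ∧ (m : K) ∈ M}

theorem Wset_finite (hd : 0 < P.natDegree) {M : Set K} (hM : M.Finite) : (Wset P M).Finite := by
  classical
  have hP := P_ne hd
  have hZ : ∀ c : K, {n : K | P.eval n = c}.Finite := by
    intro c
    have h1 : P - Polynomial.C c ≠ 0 := by
      intro h0
      have h2 := congrArg Polynomial.natDegree (sub_eq_zero.1 h0)
      rw [Polynomial.natDegree_C] at h2
      omega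
    refine ((P - Polynomial.C c).roots.toFinset.finite_toSet).subset ?_
    intro n hn
    rw [Finset.mem_coe, Multiset.mem_toFinset, Polynomial.mem_roots h1, Polynomial.IsRoot.def,
      Polynomial.eval_sub, Polynomial.eval_C]
    exact sub_eq_zero.2 hn
  obtain ⟨Z, hZd⟩ : ∃ Z : Set K, Z = ⋃ m ∈ M, {n : K | P.eval n = m ^ P.natDegree * P.eval 0} :=
    ⟨_, rfl⟩
  have hZf : Z.Finite := by
    rw [hZd]
    exact hM.biUnion fun m _ => hZ _
  have hT : (M ×ˢ (M ×ˢ Z)).Finite := hM.prod (hM.prod hZf)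
  refine (hT.biUnion (t := fun p : K × K × K => {t : Au P | t (cx P) = p.1 • cx P ∧
    t (cz P) = p.2.1 • cz P + algebraMap K _ p.2.2}) fun p _ => ?_).subset ?_
  · refine Set.Subsingleton.finite ?_
    intro g hg h hh
    exact ext_xz hP (hg.1.trans hh.1.symm) (hg.2.trans hh.2.symm)
  · rintro t ⟨l, b, m, n, h, hl, hm⟩
    rw [Set.mem_iUnion₂]
    refine ⟨((l : K), (m : K), n), ⟨hl, hm, ?_⟩, h.1, h.2.2⟩
    rw [hZd, Set.mem_iUnion₂]
    exact ⟨m, hm, ap_const hd h⟩

end Pool.Agent.U74.DS
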