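import Pool.Agent.U670.AmTree

/-!
# Level functions whose lowest vertex is a coset of `B`, and bounded stabilizers of long paths

Owner helper74. The tree itself (`Vt`, `tr`) and the elementary lemmas about it are those of helper670
(`Pool.Agent.U670.AmTree`). Here the level functions have their minimum at the vertex `B`, and the
pointwise stabilizers of the long paths are finite of bounded order instead of trivial.
-/

set_option autoImplicit false

namespace Pool.Agent.U74.DS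

open Pool.Agent.U670.AT
open Pool.Agent.Y110.FJ (ClosedE)
open Pool.Agent.N509.TX (AcylF of_fg C_stab)

variable {Γ : Type} [Group Γ]

/-- compatible level functions with lowest vertex `B` -/
structure LevB (A B : Subgroup Γ) (lA lB : Γ → ℕ) : Prop where
  iA : ∀ g, ∀ a ∈ A, lA (g * a) = lA g
  iB : ∀ g, ∀ b ∈ B, lB (g * b) = lB g
  base : ∀ b ∈ B, lB b < lA b
  uA : ∀ g, ∀ a ∈ A, lB g < lA g → lB (g * a) < lA g → a ∈ B
  uB : ∀ g, ∀ b ∈ B, b ∉ A → lA g ≤ lB g → lB g < lA (g * b)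

/-- the reduced elements -/
inductive RedB (A B : Subgroup Γ) (lA lB : Γ → ℕ) : Bool → Γ → Prop
  | base (g : Γ) : g ∈ B → RedB A B lA lB true g
  | stA (g a : Γ) : a ∈ A → lB (g * a) < lA g → RedB A B lA lB true (g * a) →
      RedB A B lA lB false g
  | stB (g b : Γ) : b ∈ B → lA (g * b) ≤ lB g → RedB A B lA lB false (g * b) →
      RedB A B lA lB true g

variable {A B : Subgroup Γ} {lA lB : Γ → ℕ}

theorem redA (h : LevB A B lA lB) {g a : Γ} (hg : RedB A B lA lB false g) (ha : a ∈ A) :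
    RedB A B lA lB false (g * a) := by
  cases hg with
  | stA _ a0 ha0 hlt hr =>
    have e : g * a * (a⁻¹ * a0) = g * a0 := by group
    refine RedB.stA _ (a⁻¹ * a0) (mul_mem (inv_mem ha) ha0) ?_ ?_
    · rw [e, h.iA g a ha]
      exact hlt
    · rw [e]
      exact hr

theorem redB (h : LevB A B lA lB) {g b : Γ} (hg : RedB A B lA lB true g) (hb : b ∈ B) :
    RedB A B lA lB true (g * b) := by
  cases hg with
  | base _ hg => exact RedB.base _ (mul_mem hg hb)
  | stB _ b0 hb0 hle hr =>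
    have e : g * b * (b⁻¹ * b0) = g * b0 := by group
    refine RedB.stB _ (b⁻¹ * b0) (mul_mem (inv_mem hb) hb0) ?_ ?_
    · rw [e, h.iB g b hb]
      exact hle
    · rw [e]
      exact hr

theorem redFT (h : LevB A B lA lB) {g : Γ} (hg : RedB A B lA lB false g) :
    RedB A B lA lB true g := by
  have hg0 := hg
  cases hg with
  | stA _ a0 ha0 hlt hr =>
    by_cases hb : a0 ∈ B
    · have := redB h hr (inv_mem hb)
      rwa [mul_inv_cancel_right] at this
    · have h1 : ¬ lB g < lA g := fun hlt1 => hb (h.uA g a0 ha0 hlt1 hlt)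
      refine RedB.stB _ 1 (one_mem _) ?_ (by rwa [mul_one])
      rw [mul_one]
      exact not_lt.1 h1

theorem redTF (h : LevB A B lA lB) {g : Γ} (hg : RedB A B lA lB true g) :
    RedB A B lA lB false g := by
  have hg0 := hg
  cases hg with
  | base _ hg =>
    refine RedB.stA _ 1 (one_mem _) ?_ (by rwa [mul_one])
    rw [mul_one]
    exact h.base g hg
  | stB _ b0 hb0 hle hr =>
    by_cases ha : b0 ∈ A
    · have := redA h hr (inv_mem ha)
      rwa [mul_inv_cancel_right] at this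
    · have h1 : lA (g * b0) ≤ lB (g * b0) := by
        rw [h.iB g b0 hb0]
        exact hle
      have h2 := h.uB (g * b0) b0⁻¹ (inv_mem hb0) (fun hh => ha (by simpa using inv_mem hh)) h1
      rw [mul_inv_cancel_right, h.iB g b0 hb0] at h2
      refine RedB.stA _ 1 (one_mem _) ?_ (by rwa [mul_one])
      rw [mul_one]
      exact h2

theorem red_all (h : LevB A B lA lB) {g : Γ} (hg : g ∈ A ⊔ B) : RedB A B lA lB false g := by
  let S : Subgroup Γ :=
    { carrier := {x | ∀ y, RedB A B lA lB false y ↔ RedB A B lA lB false (y * x)}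
      one_mem' := fun y => by rw [mul_one]
      mul_mem' := fun {a b} ha hb y => by
        rw [ha y, hb (y * a), mul_assoc]
      inv_mem' := fun {a} ha y => by
        rw [ha (y * a⁻¹), inv_mul_cancel_right] }
  have hA : A ≤ S := by
    intro a ha y
    refine ⟨fun hy => redA h hy ha, fun hy => ?_⟩
    have := redA h hy (inv_mem ha)
    rwa [mul_inv_cancel_right] at this
  have hB : B ≤ S := by
    intro b hb y
    refine ⟨fun hy => redTF h (redB h (redFT h hy) hb), fun hy => ?_⟩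
    have := redTF h (redB h (redFT h hy) (inv_mem hb))
    rwa [mul_inv_cancel_right] at this
  have h1 : g ∈ S := (sup_le hA hB) hg
  have h2 := (h1 1).1 (redTF h (RedB.base 1 (one_mem _)))
  rwa [one_mul] at h2

theorem lev_A (h : LevB A B lA lB) (g : GG A B) :
    lev A B lA lB (vA A B g) = 2 * lA (g : Γ) := by
  have h1 : (g : Γ)⁻¹ * ((QuotientGroup.mk g : GG A B ⧸ A.subgroupOf (A ⊔ B)).out : Γ) ∈ A := by
    have : (QuotientGroup.mk g : GG A B ⧸ A.subgroupOf (A ⊔ B)) = QuotientGroup.mk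
        ((QuotientGroup.mk g : GG A B ⧸ A.subgroupOf (A ⊔ B)).out) := (Quotient.out_eq' _).symm
    rw [QuotientGroup.eq, Subgroup.mem_subgroupOf] at this
    exact this
  have h2 := h.iA (g : Γ) _ h1
  rw [mul_inv_cancel_left] at h2
  unfold vA lev
  simp only
  rw [h2]

theorem lev_B (h : LevB A B lA lB) (g : GG A B) :
    lev A B lA lB (vB A B g) = 2 * lB (g : Γ) + 1 := by
  have h1 : (g : Γ)⁻¹ * ((QuotientGroup.mk g : GG A B ⧸ B.subgroupOf (A ⊔ B)).out : Γ) ∈ B := by
    have : (QuotientGroup.mk g : GG A B ⧸ B.subgroupOf (A ⊔ B)) = QuotientGroup.mk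
        ((QuotientGroup.mk g : GG A B ⧸ B.subgroupOf (A ⊔ B)).out) := (Quotient.out_eq' _).symm
    rw [QuotientGroup.eq, Subgroup.mem_subgroupOf] at this
    exact this
  have h2 := h.iB (g : Γ) _ h1
  rw [mul_inv_cancel_left] at h2
  unfold vB lev
  simp only
  rw [h2]

theorem tr_tree (h : LevB A B lA lB) : (tr A B).IsTree := by
  refine isTree_of_level _ (lev A B lA lB) (vB A B 1) ?_ ?_ ?_
  · rintro u v ⟨g, ⟨rfl, rfl⟩ | ⟨rfl, rfl⟩⟩
    · rw [lev_A h, lev_B h]
      omega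
    · rw [lev_A h, lev_B h]
      omega
  · intro v hv
    rcases cases_v v with ⟨g, rfl⟩ | ⟨g, rfl⟩
    · have hr := red_all h g.2
      cases hr with
      | stA _ a ha hlt _ =>
        have ha' : a ∈ A ⊔ B := Subgroup.mem_sup_left ha
        refine ⟨vB A B (g * ⟨a, ha'⟩), ⟨g * ⟨a, ha'⟩, Or.inl ⟨?_, rfl⟩⟩, ?_⟩
        · rw [vA_eq]
          simpa using ha
        · rw [lev_A h, lev_B h]
          change 2 * lB ((g : Γ) * a) + 1 < _
          omega
    · have hr := redFT h (red_all h g.2)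
      cases hr with
      | base _ hg =>
        exfalso
        apply hv
        rw [vB_eq]
        have := inv_mem hg
        simpa using this
      | stB _ b hb hle _ =>
        have hb' : b ∈ A ⊔ B := Subgroup.mem_sup_right hb
        refine ⟨vA A B (g * ⟨b, hb'⟩), ⟨g * ⟨b, hb'⟩, Or.inr ⟨?_, rfl⟩⟩, ?_⟩
        · rw [vB_eq]
          simpa using hb
        · rw [lev_A h, lev_B h]
          change 2 * lA ((g : Γ) * b) < _
          omega
  · intro v u u' hu hu' hl hl'
    rcases cases_v v with ⟨g, rfl⟩ | ⟨g, rfl⟩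
    · obtain ⟨a, ha, rfl⟩ := adjA hu
      obtain ⟨a', ha', rfl⟩ := adjA hu'
      rw [lev_A h, lev_B h] at hl hl'
      have h1 : lB ((g : Γ) * a) < lA (g : Γ) := by
        change 2 * lB ((g : Γ) * a) + 1 < _ at hl
        omega
      have h2 : lB ((g : Γ) * a') < lA (g : Γ) := by
        change 2 * lB ((g : Γ) * a') + 1 < _ at hl'
        omega
      have e0 : (g : Γ) * a * ((a : Γ)⁻¹ * a') = (g : Γ) * a' := by group
      have h3 := h.uA ((g : Γ) * a) ((a : Γ)⁻¹ * a') (mul_mem (inv_mem ha) ha')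
        (by rwa [h.iA _ _ ha]) (by rw [e0, h.iA _ _ ha]; exact h2)
      rw [vB_eq]
      have e : ((g * a : GG A B) : Γ)⁻¹ * ((g * a' : GG A B) : Γ) = (a : Γ)⁻¹ * (a' : Γ) := by
        rw [Subgroup.coe_mul, Subgroup.coe_mul]
        group
      rw [e]
      exact h3
    · obtain ⟨b, hb, rfl⟩ := adjB hu
      obtain ⟨b', hb', rfl⟩ := adjB hu'
      rw [lev_A h, lev_B h] at hl hl'
      have h1 : lA ((g : Γ) * (b : Γ)) ≤ lB (g : Γ) := by
        change 2 * lA ((g : Γ) * (b : Γ)) < _ at hl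
        omega
      have h2 : lA ((g : Γ) * (b' : Γ)) ≤ lB (g : Γ) := by
        change 2 * lA ((g : Γ) * (b' : Γ)) < _ at hl'
        omega
      rw [vA_eq]
      have e : ((g * b : GG A B) : Γ)⁻¹ * ((g * b' : GG A B) : Γ) = (b : Γ)⁻¹ * (b' : Γ) := by
        rw [Subgroup.coe_mul, Subgroup.coe_mul]
        group
      rw [e]
      have hbb : (b : Γ)⁻¹ * (b' : Γ) ∈ B := mul_mem (inv_mem hb) hb'
      by_contra hna
      have h3 := h.uB ((g : Γ) * (b : Γ)) _ hbb hna (by rw [h.iB _ _ hb]; exact h1)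
      have e2 : (g : Γ) * (b : Γ) * ((b : Γ)⁻¹ * (b' : Γ)) = (g : Γ) * (b' : Γ) := by group
      rw [e2, h.iB _ _ hb] at h3
      exact absurd h2 (not_le.2 h3)

/-- the elements of the edge group which fix a path with four edges lie in `W` -/
def CoreW (A B : Subgroup Γ) (W : Set Γ) : Prop :=
  ∀ t ∈ A, t ∈ B → ∀ b ∈ B, b ∉ A → ∀ a ∈ A, a ∉ B → ∀ b' ∈ B, b' ∉ A →
    b⁻¹ * t * b ∈ A → a⁻¹ * (b⁻¹ * t * b) * a ∈ B → b'⁻¹ * (a⁻¹ * (b⁻¹ * t * b) * a) * b' ∈ A →
    t ∈ W

/-- the pointwise stabilizer of a path `v0, ..., v4` which starts at a coset of `A` -/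
theorem four {W : Set Γ} (hW : W.Finite) (hc : CoreW A B W) (v : ℕ → Vt A B)
    (hv0 : ∃ g, v 0 = vA A B g)
    (hadj : ∀ i < 4, (tr A B).Adj (v i) (v (i + 1))) (hne : ∀ i < 3, v i ≠ v (i + 2))
    (F : Finset (GG A B)) (hF : ∀ g ∈ F, ∀ i ≤ 4, g • v i = v i) : F.card ≤ W.ncard := by
  obtain ⟨g0, h0⟩ := hv0
  have ad0 := hadj 0 (by norm_num)
  rw [h0] at ad0
  obtain ⟨a0, ha0, h1⟩ := adjA ad0
  obtain ⟨x0, hx0⟩ : ∃ x0, x0 = g0 * a0 := ⟨_, rfl⟩
  rw [← hx0] at h1
  have h0' : v 0 = vA A B x0 := by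
    rw [h0, hx0, vA_eq]
    simpa using ha0
  simp only [zero_add] at h1
  have ad1 := hadj 1 (by norm_num)
  rw [h1] at ad1
  obtain ⟨b1, hb1, hb1', h2, k1⟩ := nextB ad1 (by rw [← h0']; exact (hne 0 (by norm_num)).symm)
  have ad2 := hadj 2 (by norm_num)
  simp only [Nat.reduceAdd] at h2 ad2
  rw [h2] at ad2
  obtain ⟨a1, ha1, ha1', h3, k2⟩ := nextA ad2 (by rw [← k1, ← h1]; exact (hne 1 (by norm_num)).symm)
  have ad3 := hadj 3 (by norm_num)
  simp only [Nat.reduceAdd] at h3 ad3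
  rw [h3] at ad3
  obtain ⟨b2, hb2, hb2', h4, k3⟩ := nextB ad3 (by rw [← k2, ← h2]; exact (hne 2 (by norm_num)).symm)
  rw [← Set.ncard_coe_finset F]
  refine Set.ncard_le_ncard_of_injOn (fun g : GG A B => (x0 : Γ)⁻¹ * (g : Γ) * (x0 : Γ)) ?_ ?_ hW
  · intro g hg
    have f0 := hF g hg 0 (by norm_num)
    have f1 := hF g hg 1 (by norm_num)
    have f2 := hF g hg 2 (by norm_num)
    have f3 := hF g hg 3 (by norm_num)
    have f4 := hF g hg 4 (by norm_num)
    rw [h0'] at f0
    rw [h1] at f1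
    rw [h2] at f2
    rw [h3] at f3
    rw [h4] at f4
    have m0 := fixA f0
    have m1 := fixB f1
    have m2 := fixA f2
    have m3 := fixB f3
    have m4 := fixA f4
    have e2 : ((x0 * b1 : GG A B) : Γ)⁻¹ * (g : Γ) * ((x0 * b1 : GG A B) : Γ) =
        (b1 : Γ)⁻¹ * ((x0 : Γ)⁻¹ * (g : Γ) * (x0 : Γ)) * (b1 : Γ) := by
      rw [Subgroup.coe_mul]
      group
    have e3 : ((x0 * b1 * a1 : GG A B) : Γ)⁻¹ * (g : Γ) * ((x0 * b1 * a1 : GG A B) : Γ) =
        (a1 : Γ)⁻¹ * ((b1 : Γ)⁻¹ * ((x0 : Γ)⁻¹ * (g : Γ) * (x0 : Γ)) * (b1 : Γ)) * (a1 : Γ) := by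
      rw [Subgroup.coe_mul, Subgroup.coe_mul]
      group
    have e4 : ((x0 * b1 * a1 * b2 : GG A B) : Γ)⁻¹ * (g : Γ) * ((x0 * b1 * a1 * b2 : GG A B) : Γ) =
        (b2 : Γ)⁻¹ * ((a1 : Γ)⁻¹ * ((b1 : Γ)⁻¹ * ((x0 : Γ)⁻¹ * (g : Γ) * (x0 : Γ)) * (b1 : Γ)) *
          (a1 : Γ)) * (b2 : Γ) := by
      rw [Subgroup.coe_mul, Subgroup.coe_mul, Subgroup.coe_mul]
      group
    rw [e2] at m2
    rw [e3] at m3
    rw [e4] at m4
    exact hc _ m0 m1 _ hb1 hb1' _ ha1 ha1' _ hb2 hb2' m2 m3 m4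
  · intro g _ g' _ hgg
    have h5 := mul_left_cancel (mul_right_cancel hgg)
    exact Subtype.ext h5

/-- the pointwise stabilizers of the paths of length at least five -/
theorem acyl {W : Set Γ} (hW : W.Finite) (hc : CoreW A B W)
    (u w : Vt A B) (p : (tr A B).Walk u w) (hp : p.IsPath) (hlen : 5 ≤ p.length)
    (F : Finset (GG A B)) (hF : ∀ g ∈ F, ∀ x ∈ p.support, g • x = x) : F.card ≤ W.ncard := by
  have hinj : ∀ i ≤ p.length, ∀ j ≤ p.length, p.getVert i = p.getVert j → i = j := by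
    intro i hi j hj hij
    exact hp.getVert_injOn hi hj hij
  have hadj : ∀ i, i < p.length → (tr A B).Adj (p.getVert i) (p.getVert (i + 1)) :=
    fun i hi => p.adj_getVert_succ hi
  rcases cases_v (p.getVert 0) with ⟨g, hg⟩ | ⟨g, hg⟩
  · refine four hW hc (fun i => p.getVert i) ⟨g, hg⟩ (fun i hi => hadj _ (by omega))
      (fun i hi hh => ?_) F fun g hg i hi => hF g hg _ (p.getVert_mem_support _)
    have := hinj _ (by omega) _ (by omega) hh
    omega
  · have h1 := hadj 0 (by omega)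
    rw [hg] at h1
    obtain ⟨a, ha, h2⟩ := adjB h1
    refine four hW hc (fun i => p.getVert (i + 1)) ⟨_, h2⟩ (fun i hi => hadj _ (by omega))
      (fun i hi hh => ?_) F fun g hg i hi => hF g hg _ (p.getVert_mem_support _)
    have := hinj _ (by omega) _ (by omega) hh
    omega

variable {C : ∀ (G : Type) [Group G], Prop}

/-- **the group generated by `A` and `B` is in the class** -/
theorem levB_closed (hC : ClosedE C) (hAc : AcylF C) (h : LevB A B lA lB) {W : Set Γ}
    (hW : W.Finite) (hc : CoreW A B W) (hA : C A) (hB : C B) : C (GG A B) := by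
  classical
  refine of_fg hC fun H hH => ?_
  refine hAc H (Vt A B) (tr A B) hH (tr_tree h) (fun g u v huv => tr_act (g : GG A B) u v huv)
    (fun g u v huv => tr_inv (g : GG A B) u v huv) ⟨5, W.ncard, ?_⟩ fun v => ?_
  · intro u w p hp hlen F hF
    have h1 := acyl hW hc u w p hp hlen (F.map ⟨Subtype.val, Subtype.val_injective⟩) (by
      intro g hg x hx
      rw [Finset.mem_map] at hg
      obtain ⟨g', hg', rfl⟩ := hg
      exact hF g' hg' x hx)
    rwa [Finset.card_map] at h1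
  · refine C_stab hC H v ?_
    rcases cases_v v with ⟨g, rfl⟩ | ⟨g, rfl⟩
    · exact stabA hC hA g
    · exact stabB hC hB g

end Pool.Agent.U74.DS
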