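import Pool.Agent.U74.DS.Ring
import Pool.Agent.U74.DS.Tree

/-!
# The linear and the triangular automorphisms of the surface `x y = P(z)`

Owner helper74.
-/

set_option autoImplicit false

namespace Pool.Agent.U74.DS

variable {K : Type} [Field K] {P : Polynomial K}

/-- the group of the `K`-algebra automorphisms of the coordinate ring -/
abbrev Au (P : Polynomial K) : Type := Rng P ≃ₐ[K] Rng P

/-! ### the degree -/

/-- the degree in `z` -/
noncomputable def dg (f : Rng P) : ℕ := (th P f).natDegree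

theorem th_ne (hP : P ≠ 0) {f : Rng P} (hf : f ≠ 0) : th P f ≠ 0 := fun h =>
  hf ((injective_iff_map_eq_zero (th P)).1 (th_inj hP) f h)

theorem dg_mul (hP : P ≠ 0) {f g : Rng P} (hf : f ≠ 0) (hg : g ≠ 0) :
    dg (f * g) = dg f + dg g := by
  unfold dg
  rw [map_mul, Polynomial.natDegree_mul (th_ne hP hf) (th_ne hP hg)]

theorem algL_ne {c : K} (hc : c ≠ 0) : algebraMap K (Lf K) c ≠ 0 := by
  rwa [Ne, map_eq_zero_iff _ (algebraMap K (Lf K)).injective]

theorem smul_L (c : K) (F : Polynomial (Lf K)) :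
    c • F = Polynomial.C (algebraMap K (Lf K) c) * F := by
  rw [Algebra.smul_def]
  rfl

theorem dg_smul {c : K} (hc : c ≠ 0) (f : Rng P) : dg (c • f) = dg f := by
  unfold dg
  rw [map_smul, smul_L, Polynomial.natDegree_C_mul (algL_ne hc)]

theorem aeval_comp_L (F : Polynomial (Lf K)) (q : Polynomial K) :
    Polynomial.aeval F q = (q.map (algebraMap K (Lf K))).comp F := by
  rw [Polynomial.comp, Polynomial.eval₂_map, Polynomial.aeval_def]
  rfl

theorem dg_aeval (f : Rng P) (q : Polynomial K) :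
    dg (Polynomial.aeval f q) = q.natDegree * dg f := by
  unfold dg
  rw [← Polynomial.aeval_algHom_apply, aeval_comp_L, Polynomial.natDegree_comp,
    Polynomial.natDegree_map]

theorem si_ne : (si : Lf K) ≠ 0 := fun h => by
  have := sx_si (K := K)
  rw [h, mul_zero] at this
  exact zero_ne_one this

theorem sx_ne : (sx : Lf K) ≠ 0 := fun h => by
  have := sx_si (K := K)
  rw [h, zero_mul] at this
  exact zero_ne_one this

theorem dg_x : dg (cx P) = 0 := by
  unfold dg
  rw [th_x, Polynomial.natDegree_C]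

theorem dg_z : dg (cz P) = 1 := by
  unfold dg
  rw [th_z, Polynomial.natDegree_X]

theorem dg_y : dg (cy P) = P.natDegree := by
  unfold dg
  rw [th_y, Polynomial.natDegree_C_mul si_ne, aeval_comp_L, Polynomial.comp_X,
    Polynomial.natDegree_map]

theorem cx_ne (P : Polynomial K) : cx P ≠ 0 := fun h => by
  have h1 := th_x P
  rw [h, map_zero] at h1
  exact sx_ne (Polynomial.C_eq_zero.1 h1.symm)

theorem cy_ne (hP : P ≠ 0) : cy P ≠ 0 := fun h => by
  have h1 := th_y P
  rw [h, map_zero] at h1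
  rcases mul_eq_zero.1 h1.symm with h2 | h2
  · exact si_ne (Polynomial.C_eq_zero.1 h2)
  · rw [aeval_comp_L, Polynomial.comp_X] at h2
    exact hP ((Polynomial.map_eq_zero_iff (algebraMap K (Lf K)).injective).1 h2)

theorem dom (hP : P ≠ 0) {f g : Rng P} (hf : f ≠ 0) (h : f * g = 0) : g = 0 := by
  have h1 := congrArg (th P) h
  rw [map_mul, map_zero] at h1
  rcases mul_eq_zero.1 h1 with h2 | h2
  · exact absurd h2 (th_ne hP hf)
  · exact (injective_iff_map_eq_zero (th P)).1 (th_inj hP) _ h2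

theorem cancel (hP : P ≠ 0) {f g h : Rng P} (hf : f ≠ 0) (e : f * g = f * h) : g = h := by
  have h1 : f * (g - h) = 0 := by rw [mul_sub, e, sub_self]
  exact sub_eq_zero.1 (dom hP hf h1)

theorem smul_cancel {c c' : K} {f : Rng P} (hf : f ≠ 0) (hP : P ≠ 0) (h : c • f = c' • f) :
    c = c' := by
  have h1 := congrArg (th P) h
  rw [map_smul, map_smul, smul_L, smul_L] at h1
  have h2 := mul_right_cancel₀ (th_ne hP hf) h1
  exact (algebraMap K (Lf K)).injective (Polynomial.C_injective h2)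

theorem th_aeval_x (q : Polynomial K) : th P (Polynomial.aeval (cx P) q) = Polynomial.C (em q) := by
  rw [← Polynomial.aeval_algHom_apply, th_x]
  have h2 : (Polynomial.C (sx : Lf K)) = Polynomial.CAlgHom (R := K) (sx : Lf K) := rfl
  rw [h2, Polynomial.aeval_algHom_apply]
  rfl

theorem zx_ext {m m' : K} {q q' : Polynomial K}
    (h : m • cz P + Polynomial.aeval (cx P) q = m' • cz P + Polynomial.aeval (cx P) q') :
    m = m' ∧ q = q' := by
  have h1 := congrArg (th P) h
  rw [map_add, map_add, map_smul, map_smul, th_z, th_aeval_x, th_aeval_x, smul_L, smul_L] at h1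
  have c1 := congrArg (fun F => Polynomial.coeff F 1) h1
  have c0 := congrArg (fun F => Polynomial.coeff F 0) h1
  simp only [Polynomial.coeff_add, Polynomial.coeff_C_mul, Polynomial.coeff_X_one, mul_one,
    Polynomial.coeff_C_succ, add_zero, Polynomial.coeff_X_zero, mul_zero, zero_add,
    Polynomial.coeff_C_zero] at c1 c0
  exact ⟨(algebraMap K (Lf K)).injective c1, em_inj c0⟩

theorem g_aeval (g : Au P) (f : Rng P) (q : Polynomial K) :
    g (Polynomial.aeval f q) = Polynomial.aeval (g f) q :=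
  (Polynomial.aeval_algHom_apply g f q).symm

theorem inv_eq {g : Au P} {f h : Rng P} (e : g f = h) : (g⁻¹ : Au P) h = f := by
  rw [← e]
  exact g.symm_apply_apply f

theorem g_ne (g : Au P) {f : Rng P} (hf : f ≠ 0) : g f ≠ 0 := fun h => hf (by
  have := inv_eq h
  rw [map_zero] at this
  exact this.symm)

/-- an automorphism is determined by the images of `x` and `z` -/
theorem ext_xz (hP : P ≠ 0) {g h : Au P} (hx : g (cx P) = h (cx P)) (hz : g (cz P) = h (cz P)) :
    g = h := by
  have hy : g (cy P) = h (cy P) := by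
    have h1 := congrArg g (rel P)
    have h2 := congrArg h (rel P)
    rw [map_mul, g_aeval] at h1 h2
    rw [hz, ← h2, ← hx] at h1
    exact cancel hP (g_ne g (cx_ne P)) h1
  apply AlgEquiv.ext
  intro f
  obtain ⟨F, rfl⟩ := Ideal.Quotient.mk_surjective f
  have e : ((g : Rng P →ₐ[K] Rng P).comp (Ideal.Quotient.mkₐ K _)) =
      ((h : Rng P →ₐ[K] Rng P).comp (Ideal.Quotient.mkₐ K _)) := by
    apply MvPolynomial.algHom_ext
    intro i
    fin_cases i
    · exact hx
    · exact hy
    · exact hz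
  exact AlgHom.congr_fun e F

/-! ### the two groups -/

theorem smul_R (c : K) (f : Rng P) : c • f = algebraMap K (Rng P) c * f := Algebra.smul_def c f

/-- `g` is triangular: `g x = l x` and `g z = m z + q(x)` -/
def Bp (g : Au P) (l m : Kˣ) (q : Polynomial K) : Prop :=
  g (cx P) = (l : K) • cx P ∧ g (cz P) = (m : K) • cz P + Polynomial.aeval (cx P) q

theorem aeval_smul (c : K) (f : Rng P) (q : Polynomial K) :
    Polynomial.aeval (c • f) q = Polynomial.aeval f (q.comp (Polynomial.C c * Polynomial.X)) := by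
  rw [Polynomial.aeval_comp]
  congr 1
  rw [map_mul, Polynomial.aeval_C, Polynomial.aeval_X, smul_R]

theorem aeval_lin (m n : K) (f : Rng P) (q : Polynomial K) :
    Polynomial.aeval (m • f + algebraMap K _ n) q =
      Polynomial.aeval f (q.comp (Polynomial.C m * Polynomial.X + Polynomial.C n)) := by
  rw [Polynomial.aeval_comp]
  congr 1
  rw [map_add, map_mul, Polynomial.aeval_C, Polynomial.aeval_X, Polynomial.aeval_C,
    smul_R]

theorem aeval_C_mul (c : K) (f : Rng P) (q : Polynomial K) :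
    Polynomial.aeval f (Polynomial.C c * q) = c • Polynomial.aeval f q := by
  rw [map_mul, Polynomial.aeval_C, smul_R]

theorem bp_mul {g h : Au P} {l m l' m' : Kˣ} {q q' : Polynomial K} (hg : Bp g l m q)
    (hh : Bp h l' m' q') : Bp (g * h) (l * l') (m * m')
      (Polynomial.C (m' : K) * q + q'.comp (Polynomial.C (l : K) * Polynomial.X)) := by
  constructor
  · rw [AlgEquiv.mul_apply, hh.1, map_smul, hg.1, smul_smul, Units.val_mul, mul_comm]
  · rw [AlgEquiv.mul_apply, hh.2, map_add, map_smul, g_aeval, hg.1, hg.2, aeval_smul, smul_add,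
      smul_smul, map_add, aeval_C_mul, Units.val_mul, mul_comm, add_assoc]

theorem bp_inv {g : Au P} {l m : Kˣ} {q : Polynomial K} (hg : Bp g l m q) :
    Bp g⁻¹ l⁻¹ m⁻¹ (Polynomial.C (-((m⁻¹ : Kˣ) : K)) *
      q.comp (Polynomial.C ((l⁻¹ : Kˣ) : K) * Polynomial.X)) := by
  constructor
  · apply inv_eq
    rw [map_smul, hg.1, smul_smul, ← Units.val_mul, inv_mul_cancel, Units.val_one, one_smul]
  · apply inv_eq
    rw [map_add, map_smul, g_aeval, hg.1, hg.2, aeval_C_mul, ← aeval_smul, smul_smul,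
      ← Units.val_mul, inv_mul_cancel, Units.val_one, one_smul, smul_add, smul_smul,
      ← Units.val_mul, inv_mul_cancel, Units.val_one, one_smul, neg_smul, add_assoc,
      add_neg_cancel, add_zero]

theorem bp_one : Bp (1 : Au P) 1 1 0 := by
  constructor
  · rw [Units.val_one, one_smul]
    rfl
  · rw [Units.val_one, one_smul, map_zero, add_zero]
    rfl

/-- the triangular automorphisms -/
def bG (P : Polynomial K) : Subgroup (Au P) where
  carrier := {g | ∃ (l m : Kˣ) (q : Polynomial K), g (cx P) = (l : K) • cx P ∧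
    g (cz P) = (m : K) • cz P + Polynomial.aeval (cx P) q}
  one_mem' := ⟨1, 1, 0, bp_one⟩
  mul_mem' := by
    rintro g h ⟨l, m, q, hg⟩ ⟨l', m', q', hh⟩
    exact ⟨_, _, _, bp_mul hg hh⟩
  inv_mem' := by
    rintro g ⟨l, m, q, hg⟩
    exact ⟨_, _, _, bp_inv hg⟩

theorem mem_bG {g : Au P} : g ∈ bG P ↔ ∃ l m q, Bp g l m q := Iff.rfl

/-- `s = false`: `g` multiplies `x` and `y` by constants; `s = true`: `g` also interchanges them -/
def Ap (g : Au P) (s : Bool) (l b m : Kˣ) (n : K) : Prop :=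
  g (cx P) = (l : K) • (if s then cy P else cx P) ∧ g (cy P) = (b : K) • (if s then cx P else cy P) ∧
    g (cz P) = (m : K) • cz P + algebraMap K _ n

theorem ap_mul {g h : Au P} {s s' : Bool} {l b m l' b' m' : Kˣ} {n n' : K}
    (hg : Ap g s l b m n) (hh : Ap h s' l' b' m' n') :
    ∃ l'' b'' n'', Ap (g * h) (xor s s') l'' b'' (m * m') n'' := by
  have hz : (g * h) (cz P) = ((m * m' : Kˣ) : K) • cz P + algebraMap K _ ((m' : K) * n + n') := by
    rw [AlgEquiv.mul_apply, hh.2.2, map_add, map_smul, hg.2.2, smul_add, smul_smul,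
      AlgEquiv.commutes, Units.val_mul, mul_comm (m : K), map_add, map_mul, smul_R,
      add_assoc, smul_R]
  obtain ⟨g1, g2, -⟩ := hg
  obtain ⟨h1, h2, -⟩ := hh
  cases s <;> cases s'
  · refine ⟨l * l', b * b', _, ?_, ?_, hz⟩
    · rw [AlgEquiv.mul_apply, h1]
      simp only [Bool.false_eq_true, if_false] at g1 ⊢
      rw [map_smul, g1, smul_smul, Units.val_mul, mul_comm (l : K)]
      rfl
    · rw [AlgEquiv.mul_apply, h2]
      simp only [Bool.false_eq_true, if_false] at g2 ⊢
      rw [map_smul, g2, smul_smul, Units.val_mul, mul_comm (b : K)]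
      rfl
  · refine ⟨b * l', l * b', _, ?_, ?_, hz⟩
    · rw [AlgEquiv.mul_apply, h1]
      simp only [Bool.false_eq_true, if_false, if_true] at g2 ⊢
      rw [map_smul, g2, smul_smul, Units.val_mul, mul_comm (b : K)]
      rfl
    · rw [AlgEquiv.mul_apply, h2]
      simp only [Bool.false_eq_true, if_false, if_true] at g1 ⊢
      rw [map_smul, g1, smul_smul, Units.val_mul, mul_comm (l : K)]
      rfl
  · refine ⟨l * l', b * b', _, ?_, ?_, hz⟩
    · rw [AlgEquiv.mul_apply, h1]
      simp only [Bool.false_eq_true, if_false, if_true] at g1 ⊢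
      rw [map_smul, g1, smul_smul, Units.val_mul, mul_comm (l : K)]
      rfl
    · rw [AlgEquiv.mul_apply, h2]
      simp only [Bool.false_eq_true, if_false, if_true] at g2 ⊢
      rw [map_smul, g2, smul_smul, Units.val_mul, mul_comm (b : K)]
      rfl
  · refine ⟨b * l', l * b', _, ?_, ?_, hz⟩
    · rw [AlgEquiv.mul_apply, h1]
      simp only [if_true] at g2 ⊢
      rw [map_smul, g2, smul_smul, Units.val_mul, mul_comm (b : K)]
      rfl
    · rw [AlgEquiv.mul_apply, h2]
      simp only [if_true] at g1 ⊢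
      rw [map_smul, g1, smul_smul, Units.val_mul, mul_comm (l : K)]
      rfl

theorem ap_inv {g : Au P} {s : Bool} {l b m : Kˣ} {n : K} (hg : Ap g s l b m n) :
    ∃ l'' b'' n'', Ap g⁻¹ s l'' b'' m⁻¹ n'' := by
  obtain ⟨g1, g2, g3⟩ := hg
  have hz : (g⁻¹ : Au P) (cz P) = ((m⁻¹ : Kˣ) : K) • cz P +
      algebraMap K _ (-((m⁻¹ : Kˣ) : K) * n) := by
    apply inv_eq
    rw [map_add, map_smul, g3, smul_add, smul_smul, ← Units.val_mul, inv_mul_cancel, Units.val_one,
      one_smul, AlgEquiv.commutes, map_mul, map_neg, smul_R]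
    ring
  cases s
  · refine ⟨l⁻¹, b⁻¹, _, ?_, ?_, hz⟩
    · apply inv_eq
      simp only [Bool.false_eq_true, if_false] at g1 ⊢
      rw [map_smul, g1, smul_smul, ← Units.val_mul, inv_mul_cancel, Units.val_one, one_smul]
    · apply inv_eq
      simp only [Bool.false_eq_true, if_false] at g2 ⊢
      rw [map_smul, g2, smul_smul, ← Units.val_mul, inv_mul_cancel, Units.val_one, one_smul]
  · refine ⟨b⁻¹, l⁻¹, _, ?_, ?_, hz⟩
    · apply inv_eq
      simp only [if_true] at g2 ⊢
      rw [map_smul, g2, smul_smul, ← Units.val_mul, inv_mul_cancel, Units.val_one, one_smul]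
    · apply inv_eq
      simp only [if_true] at g1 ⊢
      rw [map_smul, g1, smul_smul, ← Units.val_mul, inv_mul_cancel, Units.val_one, one_smul]

/-- the linear automorphisms, as a set -/
def Lin (g : Au P) : Prop :=
  ∃ (l b m : Kˣ) (n : K), g (cz P) = (m : K) • cz P + algebraMap K _ n ∧
    ((g (cx P) = (l : K) • cx P ∧ g (cy P) = (b : K) • cy P) ∨
      (g (cx P) = (l : K) • cy P ∧ g (cy P) = (b : K) • cx P))

theorem lin_iff {g : Au P} : Lin g ↔ ∃ s l b m n, Ap g s l b m n := by
  constructor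
  · rintro ⟨l, b, m, n, hz, ⟨hx, hy⟩ | ⟨hx, hy⟩⟩
    · exact ⟨false, l, b, m, n, hx, hy, hz⟩
    · exact ⟨true, l, b, m, n, hx, hy, hz⟩
  · rintro ⟨s, l, b, m, n, hx, hy, hz⟩
    cases s
    · exact ⟨l, b, m, n, hz, Or.inl ⟨hx, hy⟩⟩
    · exact ⟨l, b, m, n, hz, Or.inr ⟨hx, hy⟩⟩

/-- the linear automorphisms -/
def aG (P : Polynomial K) : Subgroup (Au P) where
  carrier := {g | Lin g}
  one_mem' := ⟨1, 1, 1, 0, by simp, Or.inl ⟨by simp, by simp⟩⟩
  mul_mem' := by
    intro g h hg hh
    obtain ⟨s, l, b, m, n, hg⟩ := lin_iff.1 hg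
    obtain ⟨s', l', b', m', n', hh⟩ := lin_iff.1 hh
    obtain ⟨_, _, _, h3⟩ := ap_mul hg hh
    exact lin_iff.2 ⟨_, _, _, _, _, h3⟩
  inv_mem' := by
    intro g hg
    obtain ⟨s, l, b, m, n, hg⟩ := lin_iff.1 hg
    obtain ⟨_, _, _, h3⟩ := ap_inv hg
    exact lin_iff.2 ⟨_, _, _, _, _, h3⟩

theorem mem_aG {g : Au P} : g ∈ aG P ↔ ∃ s l b m n, Ap g s l b m n := lin_iff

theorem bp_of_ap {g : Au P} {l b m : Kˣ} {n : K} (hg : Ap g false l b m n) :
    Bp g l m (Polynomial.C n) := by
  refine ⟨hg.1, ?_⟩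
  rw [Polynomial.aeval_C]
  exact hg.2.2

/-- an element of both groups does not interchange `x` and `y` -/
theorem ap_of (hd : 0 < P.natDegree) {g : Au P} (ha : g ∈ aG P) (hb : g ∈ bG P) :
    ∃ l b m n, Ap g false l b m n := by
  obtain ⟨s, l, b, m, n, h⟩ := mem_aG.1 ha
  cases s
  · exact ⟨l, b, m, n, h⟩
  · exfalso
    obtain ⟨l', m', q, h1, -⟩ := mem_bG.1 hb
    have h2 : g (cx P) = (l : K) • cy P := h.1
    have h3 := congrArg dg (h1.symm.trans h2)
    rw [dg_smul l'.ne_zero, dg_smul l.ne_zero, dg_x, dg_y] at h3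
    omega

/-! ### the triangular automorphisms with constant `q` are linear -/

/-- the map `R → K[z] / (P)` with `x, y ↦ 0` -/
noncomputable def rho (P : Polynomial K) : Rng P →ₐ[K] AdjoinRoot P :=
  Ideal.Quotient.liftₐ _ (MvPolynomial.aeval ![0, 0, AdjoinRoot.root P]) (by
    intro a ha
    rw [Ideal.mem_span_singleton] at ha
    obtain ⟨b, rfl⟩ := ha
    have h1 : MvPolynomial.aeval (R := K) ![0, 0, AdjoinRoot.root P] (eqn P) = 0 := by
      unfold eqn
      rw [map_sub, map_mul, MvPolynomial.aeval_X, ← Polynomial.aeval_algHom_apply,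
        MvPolynomial.aeval_X]
      simp
    rw [map_mul, h1, zero_mul])

theorem rho_x : rho P (cx P) = 0 := by
  change MvPolynomial.aeval (R := K) ![0, 0, AdjoinRoot.root P] (MvPolynomial.X 0) = 0
  rw [MvPolynomial.aeval_X]
  rfl

theorem rho_z : rho P (cz P) = AdjoinRoot.root P := by
  change MvPolynomial.aeval (R := K) ![0, 0, AdjoinRoot.root P] (MvPolynomial.X 2) = _
  rw [MvPolynomial.aeval_X]
  rfl

theorem lin_of_const (hP : P ≠ 0) {g : Au P} {l m : Kˣ} {n : K} (h : Bp g l m (Polynomial.C n)) :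
    g ∈ aG P := by
  obtain ⟨h1, h2⟩ := h
  rw [Polynomial.aeval_C] at h2
  have h3 := congrArg g (rel P)
  rw [map_mul, g_aeval, h1, h2, aeval_lin] at h3
  obtain ⟨Q, hQ⟩ : ∃ Q, Q = P.comp (Polynomial.C (m : K) * Polynomial.X + Polynomial.C n) :=
    ⟨_, rfl⟩
  rw [← hQ] at h3
  have hlin : (Polynomial.C (m : K) * Polynomial.X + Polynomial.C n).natDegree = 1 :=
    Polynomial.natDegree_linear m.ne_zero
  have hdeg : Q.natDegree = P.natDegree := by
    rw [hQ, Polynomial.natDegree_comp, hlin, mul_one]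
  have hQ0 : Q ≠ 0 := by
    intro h0
    rw [h0, map_zero] at h3
    exact g_ne g (cy_ne hP) (dom hP (by
      rw [← h1]
      exact g_ne g (cx_ne P)) h3)
  have hdvd : P ∣ Q := by
    have h4 := congrArg (rho P) h3
    rw [map_mul, map_smul, rho_x, smul_zero, zero_mul, ← Polynomial.aeval_algHom_apply, rho_z,
      AdjoinRoot.aeval_eq] at h4
    exact AdjoinRoot.mk_eq_zero.1 h4.symm
  obtain ⟨S, hS⟩ := hdvd
  have hS0 : S ≠ 0 := by
    rintro rfl
    rw [mul_zero] at hS
    exact hQ0 hS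
  have hSd : S.natDegree = 0 := by
    have := congrArg Polynomial.natDegree hS
    rw [Polynomial.natDegree_mul hP hS0, hdeg] at this
    omega
  obtain ⟨c, hc⟩ : ∃ c, S = Polynomial.C c := ⟨_, Polynomial.eq_C_of_natDegree_eq_zero hSd⟩
  have hc0 : c ≠ 0 := by
    rintro rfl
    rw [Polynomial.C_0] at hc
    exact hS0 hc
  have hy : g (cy P) = (((l⁻¹ * Units.mk0 c hc0 : Kˣ)) : K) • cy P := by
    have h5 : (l : K) • (cx P * g (cy P)) = c • (cx P * cy P) := by
      rw [← smul_mul_assoc, h3, hS, hc, mul_comm P, aeval_C_mul, rel]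
    have h6 : cx P * g (cy P) = cx P * ((((l⁻¹ * Units.mk0 c hc0 : Kˣ)) : K) • cy P) := by
      rw [mul_smul_comm, Units.val_mul, mul_smul, Units.val_mk0, ← h5, smul_smul, ← Units.val_mul,
        inv_mul_cancel, Units.val_one, one_smul]
    exact cancel hP (cx_ne P) h6
  exact ⟨l, _, m, n, h2, Or.inl ⟨h1, hy⟩⟩

end Pool.Agent.U74.DS
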