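import Mathlib

/-!
# The coordinate ring of the surface `x y = P(z)`

Owner helper74. The ring is embedded in `K((x))[z]`, and the degree in `z` gives a degree function.
-/

set_option autoImplicit false

namespace Pool.Agent.U74.DS

open MvPolynomial

variable {K : Type} [Field K]

/-- the equation `x y - P(z)` -/
noncomputable def eqn (P : Polynomial K) : MvPolynomial (Fin 3) K :=
  X 0 * X 1 - Polynomial.aeval (X 2) P

/-- the coordinate ring of the Danielewski surface `x y = P(z)` -/
abbrev Rng (P : Polynomial K) : Type := MvPolynomial (Fin 3) K ⧸ Ideal.span {eqn P}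

/-- the coordinates -/
noncomputable def cx (P : Polynomial K) : Rng P := Ideal.Quotient.mk _ (X 0)
noncomputable def cy (P : Polynomial K) : Rng P := Ideal.Quotient.mk _ (X 1)
noncomputable def cz (P : Polynomial K) : Rng P := Ideal.Quotient.mk _ (X 2)

/-- the field of the Laurent series in `x` -/
abbrev Lf (K : Type) [Field K] : Type := HahnSeries ℤ K

/-- the coordinate `x` in the field of the Laurent series -/
noncomputable def sx : Lf K := HahnSeries.single (1 : ℤ) (1 : K)

/-- its inverse -/
noncomputable def si : Lf K := HahnSeries.single (-1 : ℤ) (1 : K)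

theorem sx_si : (sx : Lf K) * si = 1 := by
  unfold sx si
  rw [HahnSeries.single_mul_single]
  simp

/-- the map `x ↦ x`, `y ↦ P(z) / x`, `z ↦ z` -/
noncomputable def th0 (P : Polynomial K) : MvPolynomial (Fin 3) K →ₐ[K] Polynomial (Lf K) :=
  aeval ![Polynomial.C sx, Polynomial.C si * Polynomial.aeval Polynomial.X P, Polynomial.X]

theorem th0_x (P : Polynomial K) : th0 P (X 0) = Polynomial.C sx := by
  unfold th0
  rw [aeval_X]
  rfl

theorem th0_y (P : Polynomial K) :
    th0 P (X 1) = Polynomial.C si * Polynomial.aeval Polynomial.X P := by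
  unfold th0
  rw [aeval_X]
  rfl

theorem th0_z (P : Polynomial K) : th0 P (X 2) = Polynomial.X := by
  unfold th0
  rw [aeval_X]
  rfl

theorem th0_eqn (P : Polynomial K) : th0 P (eqn P) = 0 := by
  unfold eqn
  rw [map_sub, map_mul, th0_x, th0_y, ← mul_assoc, ← Polynomial.C_mul, sx_si, Polynomial.C_1,
    one_mul, ← Polynomial.aeval_algHom_apply, th0_z, sub_self]

/-- `K[x][z] → K[x, y, z]` -/
noncomputable def jm : Polynomial (Polynomial K) →+* MvPolynomial (Fin 3) K :=
  Polynomial.eval₂RingHom (Polynomial.aeval (X 0 : MvPolynomial (Fin 3) K)).toRingHom (X 2)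

/-- `K[x] → K((x))` -/
noncomputable def em : Polynomial K →+* Lf K := (Polynomial.aeval (sx : Lf K)).toRingHom

theorem sx_pow (n : ℕ) : (sx : Lf K) ^ n = HahnSeries.single (n : ℤ) (1 : K) := by
  unfold sx
  rw [HahnSeries.single_pow]
  simp

theorem em_coeff (p : Polynomial K) (n : ℕ) : (em p).coeff (n : ℤ) = p.coeff n := by
  induction p using Polynomial.induction_on' with
  | add p q hp hq => rw [map_add, HahnSeries.coeff_add, hp, hq, Polynomial.coeff_add]
  | monomial m a =>
    have h : em (Polynomial.monomial m a) = HahnSeries.single (m : ℤ) a := by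
      change Polynomial.aeval (sx : Lf K) (Polynomial.monomial m a) = _
      rw [Polynomial.aeval_monomial, sx_pow]
      have : algebraMap K (Lf K) a = HahnSeries.C a := by
        rw [HahnSeries.algebraMap_apply']
        simp
      rw [this, HahnSeries.C_mul_eq_smul]
      ext k
      rw [HahnSeries.coeff_smul, HahnSeries.coeff_single, HahnSeries.coeff_single]
      split_ifs <;> simp
    rw [h, HahnSeries.coeff_single, Polynomial.coeff_monomial]
    by_cases hmn : m = n
    · subst hmn
      simp
    · rw [if_neg (fun hh => hmn (by exact_mod_cast hh.symm)), if_neg hmn]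

theorem em_inj : Function.Injective (em : Polynomial K →+* Lf K) := by
  rw [injective_iff_map_eq_zero]
  intro p hp
  ext n
  rw [← em_coeff, hp]
  simp

theorem th0_jm (P : Polynomial K) (G : Polynomial (Polynomial K)) :
    th0 P (jm G) = G.map em := by
  have h : ((th0 P).toRingHom.comp jm) = Polynomial.mapRingHom (em : Polynomial K →+* Lf K) := by
    apply Polynomial.ringHom_ext
    · intro a
      change th0 P (jm (Polynomial.C a)) = _
      have h1 : jm (Polynomial.C a) = Polynomial.aeval (X 0 : MvPolynomial (Fin 3) K) a := by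
        unfold jm
        rw [Polynomial.coe_eval₂RingHom, Polynomial.eval₂_C]
        rfl
      rw [h1, ← Polynomial.aeval_algHom_apply, th0_x, Polynomial.coe_mapRingHom, Polynomial.map_C]
      have h2 : (Polynomial.C (sx : Lf K)) = Polynomial.CAlgHom (R := K) (sx : Lf K) := rfl
      rw [h2, Polynomial.aeval_algHom_apply]
      rfl
    · change th0 P (jm Polynomial.X) = _
      have h1 : jm (Polynomial.X : Polynomial (Polynomial K)) = X 2 := by
        unfold jm
        rw [Polynomial.coe_eval₂RingHom, Polynomial.eval₂_X]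
      rw [h1, th0_z, Polynomial.coe_mapRingHom, Polynomial.map_X]
  exact RingHom.congr_fun h G

/-- modulo the equation, `x ^ n F` is a polynomial in `x` and `z` -/
theorem reduce (P : Polynomial K) (F : MvPolynomial (Fin 3) K) :
    ∃ (n : ℕ) (G : Polynomial (Polynomial K)), eqn P ∣ X 0 ^ n * F - jm G := by
  induction F using MvPolynomial.induction_on with
  | C a =>
    refine ⟨0, Polynomial.C (Polynomial.C a), ?_⟩
    have h1 : jm (Polynomial.C (Polynomial.C a)) = (C a : MvPolynomial (Fin 3) K) := by
      unfold jm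
      rw [Polynomial.coe_eval₂RingHom, Polynomial.eval₂_C]
      change Polynomial.aeval (X 0 : MvPolynomial (Fin 3) K) (Polynomial.C a) = _
      rw [Polynomial.aeval_C]
      rfl
    rw [h1, pow_zero, one_mul, sub_self]
    exact dvd_zero _
  | add p q hp hq =>
    obtain ⟨n, G, h⟩ := hp
    obtain ⟨m, H, h'⟩ := hq
    refine ⟨n + m, Polynomial.C (Polynomial.X ^ m) * G + Polynomial.C (Polynomial.X ^ n) * H, ?_⟩
    have e : ∀ k : ℕ, jm (Polynomial.C (Polynomial.X ^ k)) = (X 0 ^ k : MvPolynomial (Fin 3) K) := by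
      intro k
      unfold jm
      rw [Polynomial.coe_eval₂RingHom, Polynomial.eval₂_C]
      change Polynomial.aeval (X 0 : MvPolynomial (Fin 3) K) (Polynomial.X ^ k) = _
      rw [map_pow, Polynomial.aeval_X]
    rw [map_add, map_mul, map_mul, e, e]
    have : (X 0 : MvPolynomial (Fin 3) K) ^ (n + m) * (p + q) - (X 0 ^ m * jm G + X 0 ^ n * jm H) =
        X 0 ^ m * (X 0 ^ n * p - jm G) + X 0 ^ n * (X 0 ^ m * q - jm H) := by
      rw [pow_add]
      ring
    rw [this]
    exact dvd_add (h.mul_left _) (h'.mul_left _)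
  | mul_X p i hp =>
    obtain ⟨n, G, h⟩ := hp
    fin_cases i
    · refine ⟨n, Polynomial.C Polynomial.X * G, ?_⟩
      have e : jm (Polynomial.C Polynomial.X) = (X 0 : MvPolynomial (Fin 3) K) := by
        unfold jm
        rw [Polynomial.coe_eval₂RingHom, Polynomial.eval₂_C]
        change Polynomial.aeval (X 0 : MvPolynomial (Fin 3) K) (Polynomial.X) = _
        rw [Polynomial.aeval_X]
      rw [map_mul, e]
      have : (X 0 : MvPolynomial (Fin 3) K) ^ n * (p * X 0) - X 0 * jm G =
          X 0 * (X 0 ^ n * p - jm G) := by ring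
      change eqn P ∣ X 0 ^ n * (p * X 0) - X 0 * jm G
      rw [this]
      exact h.mul_left _
    · refine ⟨n + 1, G * P.map Polynomial.C, ?_⟩
      have e : jm (P.map Polynomial.C) = (Polynomial.aeval (X 2) P : MvPolynomial (Fin 3) K) := by
        unfold jm
        rw [Polynomial.coe_eval₂RingHom, Polynomial.eval₂_map, Polynomial.aeval_def]
        congr 1
        ext a
        change (Polynomial.aeval (X 0 : MvPolynomial (Fin 3) K) (Polynomial.C a)).coeff _ = _
        rw [Polynomial.aeval_C]
      rw [map_mul, e]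
      change eqn P ∣ X 0 ^ (n + 1) * (p * X 1) - jm G * Polynomial.aeval (X 2) P
      have : (X 0 : MvPolynomial (Fin 3) K) ^ (n + 1) * (p * X 1) -
          jm G * Polynomial.aeval (X 2) P =
          X 0 * X 1 * (X 0 ^ n * p - jm G) + jm G * eqn P := by
        unfold eqn
        rw [pow_succ]
        ring
      rw [this]
      exact dvd_add (h.mul_left _) (Dvd.intro_left _ rfl)
    · refine ⟨n, G * Polynomial.X, ?_⟩
      have e : jm (Polynomial.X : Polynomial (Polynomial K)) = X 2 := by
        unfold jm
        rw [Polynomial.coe_eval₂RingHom, Polynomial.eval₂_X]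
      rw [map_mul, e]
      change eqn P ∣ X 0 ^ n * (p * X 2) - jm G * X 2
      have : (X 0 : MvPolynomial (Fin 3) K) ^ n * (p * X 2) - jm G * X 2 =
          X 2 * (X 0 ^ n * p - jm G) := by ring
      rw [this]
      exact h.mul_left _

theorem not_dvd {P : Polynomial K} (hP : P ≠ 0) : ¬ (X 0 : MvPolynomial (Fin 3) K) ∣ eqn P := by
  rintro ⟨Q, hQ⟩
  have h := congrArg (aeval (R := K) ![(0 : Polynomial K), 1, Polynomial.X]) hQ
  unfold eqn at h
  rw [map_sub, map_mul, map_mul, aeval_X, aeval_X, ← Polynomial.aeval_algHom_apply, aeval_X] at h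
  apply hP
  have h2 : Polynomial.aeval (Polynomial.X : Polynomial K) P = 0 := by
    simpa using h
  simpa using h2

/-- the kernel is generated by the equation -/
theorem dvd_of_th0 {P : Polynomial K} (hP : P ≠ 0) {F : MvPolynomial (Fin 3) K}
    (hF : th0 P F = 0) : eqn P ∣ F := by
  obtain ⟨n, G, h⟩ := reduce P F
  have hG : G = 0 := by
    obtain ⟨Q, hQ⟩ := h
    have h1 := congrArg (th0 P) hQ
    rw [map_sub, map_mul, hF, map_mul, th0_eqn, zero_mul, mul_zero, zero_sub, neg_eq_zero,
      th0_jm] at h1
    exact (Polynomial.map_eq_zero_iff em_inj).1 h1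
  rw [hG, map_zero, sub_zero] at h
  obtain ⟨Q, hQ⟩ := h
  have h1 : (X 0 : MvPolynomial (Fin 3) K) ^ n ∣ eqn P * Q := ⟨F, hQ.symm⟩
  obtain ⟨Q', hQ'⟩ := (X_prime (R := K) (i := (0 : Fin 3))).pow_dvd_of_dvd_mul_left n (not_dvd hP) h1
  refine ⟨Q', ?_⟩
  have h2 : (X 0 : MvPolynomial (Fin 3) K) ^ n * F = X 0 ^ n * (eqn P * Q') := by
    rw [hQ, hQ']
    ring
  exact mul_left_cancel₀ (pow_ne_zero n (X_ne_zero _)) h2

/-- the embedding of the coordinate ring in `K((x))[z]` -/
noncomputable def th (P : Polynomial K) : Rng P →ₐ[K] Polynomial (Lf K) :=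
  Ideal.Quotient.liftₐ _ (th0 P) (by
    intro a ha
    rw [Ideal.mem_span_singleton] at ha
    obtain ⟨b, rfl⟩ := ha
    rw [map_mul, th0_eqn, zero_mul])

theorem th_mk (P : Polynomial K) (F : MvPolynomial (Fin 3) K) :
    th P (Ideal.Quotient.mk _ F) = th0 P F := rfl

theorem th_inj {P : Polynomial K} (hP : P ≠ 0) : Function.Injective (th P) := by
  rw [injective_iff_map_eq_zero]
  intro f hf
  obtain ⟨F, rfl⟩ := Ideal.Quotient.mk_surjective f
  rw [th_mk] at hf
  rw [Ideal.Quotient.eq_zero_iff_mem, Ideal.mem_span_singleton]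
  exact dvd_of_th0 hP hf

theorem th_x (P : Polynomial K) : th P (cx P) = Polynomial.C sx := th0_x P
theorem th_y (P : Polynomial K) :
    th P (cy P) = Polynomial.C si * Polynomial.aeval Polynomial.X P := th0_y P
theorem th_z (P : Polynomial K) : th P (cz P) = Polynomial.X := th0_z P

theorem rel (P : Polynomial K) : cx P * cy P = Polynomial.aeval (cz P) P := by
  have h1 : cx P * cy P - Polynomial.aeval (cz P) P = Ideal.Quotient.mkₐ K _ (eqn P) := by
    unfold eqn
    rw [map_sub, map_mul, ← Polynomial.aeval_algHom_apply]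
    rfl
  have h2 : Ideal.Quotient.mkₐ K (Ideal.span {eqn P}) (eqn P) = 0 :=
    Ideal.Quotient.eq_zero_iff_mem.2 (Ideal.mem_span_singleton_self _)
  rw [h2] at h1
  exact sub_eq_zero.1 h1

end Pool.Agent.U74.DS
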